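import Pool.Agent.Lib.MP_1bd42a_an.NonDense

/-! The alternating sequence is dense for generic rotation angle. -/

namespace Pool.Agent.Lib.MP_1bd42a_an

open Complex Finset Filter Topology

lemma exists_ray {g : ℝ → ℂ} (hc : Continuous g) (h0 : g 0 = 0) (h : ∀ N, 0 < N → Marg N g)
    {z : ℂ} (hre : 0 < z.re) (him : 0 < z.im) {η : ℝ} (hη : 0 < η) :
    ∃ t r : ℝ, 0 < r ∧ r < η ∧ g t = r * z := by
  have hL : 0 < L z := add_pos hre him
  obtain ⟨δ, hδ, hδ'⟩ := Metric.continuousAt_iff.1 (hc.continuousAt (x := 0)) (η * L z / 2)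
    (by positivity)
  obtain ⟨M, hM⟩ := exists_nat_gt (max (1 / δ) (max (‖z‖ / z.re) (‖z‖ / z.im)))
  have hM1 : 1 / δ < M := (le_max_left _ _).trans_lt hM
  have hM2 : ‖z‖ / z.re < M := ((le_max_left _ _).trans (le_max_right _ _)).trans_lt hM
  have hM3 : ‖z‖ / z.im < M := ((le_max_right _ _).trans (le_max_right _ _)).trans_lt hM
  have hM0 : (0 : ℝ) < M := lt_trans (by positivity) hM1
  have hM4 : (1 : ℝ) ≤ M := by
    have : 0 < M := by exact_mod_cast hM0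
    exact_mod_cast this
  let F : ℝ → ℝ := fun t => (g t * (starRingEnd ℂ) z).im
  have hF : Continuous F := by fun_prop
  have key : ∀ N : ℕ, (M : ℝ) ≤ N → ∃ τ ρ : ℝ, 0 < τ ∧ τ ≤ 1 / M ∧ 0 < ρ ∧
      |F τ - ρ * (d N * (starRingEnd ℂ) z).im| ≤ ρ * (‖z‖ / M) := by
    intro N hN
    have hN0 : (0 : ℝ) < N := hM0.trans_le hN
    obtain ⟨τ, ρ, h1, h2, h3, h4⟩ := (h N (by exact_mod_cast hN0)).2
    refine ⟨τ, ρ, h1, h2.trans (by gcongr), h3, ?_⟩
    have h5 := Complex.abs_im_le_norm ((g τ - ρ * d N) * (starRingEnd ℂ) z)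
    rw [norm_mul, Complex.norm_conj, sub_mul, sub_im, mul_assoc, im_ofReal_mul] at h5
    refine h5.trans ?_
    calc ‖g τ - ρ * d N‖ * ‖z‖ ≤ ρ / N * ‖z‖ := by gcongr
      _ ≤ ρ / M * ‖z‖ := by gcongr
      _ = ρ * (‖z‖ / M) := by ring
  obtain ⟨τ₁, ρ₁, a1, a2, a3, a4⟩ := key (2 * M) (by push_cast; linarith)
  obtain ⟨τ₂, ρ₂, b1, b2, b3, b4⟩ := key (2 * M + 1) (by push_cast; linarith)
  have hd1 : d (2 * M) = 1 := by simp [d]
  have hd2 : d (2 * M + 1) = I := by simp [d]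
  rw [hd1] at a4
  rw [hd2] at b4
  simp only [one_mul, conj_im, mul_im, I_re, I_im, conj_re, zero_mul, zero_add] at a4 b4
  have c1 : ‖z‖ / M < z.im := by rw [div_lt_iff₀ him] at hM3; rw [div_lt_iff₀ hM0]; linarith
  have c2 : ‖z‖ / M < z.re := by rw [div_lt_iff₀ hre] at hM2; rw [div_lt_iff₀ hM0]; linarith
  have f1 : F τ₁ ≤ 0 := by
    have := (abs_le.1 a4).2
    nlinarith
  have f2 : 0 ≤ F τ₂ := by
    have := (abs_le.1 b4).1
    nlinarith
  obtain ⟨t, ht, hFt⟩ := intermediate_value_uIcc (a := τ₁) (b := τ₂) hF.continuousOn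
    (Set.mem_uIcc.2 (Or.inl ⟨f1, f2⟩))
  have ht0 : 0 < t := by
    rcases Set.mem_uIcc.1 ht with h | h <;> linarith [h.1]
  have ht1 : t ≤ 1 / M := by
    rcases Set.mem_uIcc.1 ht with h | h <;> linarith [h.2]
  have ht2 : t ≤ 1 := ht1.trans (by rw [div_le_one hM0]; exact hM4)
  have ht3 : t < δ := by
    refine ht1.trans_lt ?_
    rw [div_lt_iff₀ hδ] at hM1; rw [div_lt_iff₀ hM0]; linarith
  have hLt := L_pos_of_marg h ht0 ht2
  have hsm := hδ' (x := t) (by simpa [Real.dist_eq, abs_of_pos ht0] using ht3)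
  rw [h0, dist_zero_right] at hsm
  refine ⟨t, L (g t) / L z, by positivity, ?_, ?_⟩
  · rw [div_lt_iff₀ hL]
    linarith [le_abs_self (L (g t)), abs_L_le (g t)]
  · have h1 : (g t).im * z.re = (g t).re * z.im := by
      simp only [F, mul_im, conj_re, conj_im] at hFt
      linarith
    have h2 := hL.ne'
    apply Complex.ext
    · rw [re_ofReal_mul]; field_simp; simp only [L]; linarith
    · rw [im_ofReal_mul]; field_simp; simp only [L]; linarith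

lemma exists_ray' {g : ℝ → ℂ} (hc : Continuous g) (h0 : g 0 = 0) (h : ∀ N, 0 < N → Marg N g)
    (hneg : ∀ t, g (-t) = (starRingEnd ℂ) (g t))
    {z : ℂ} (hre : z.re ≠ 0) (him : z.im ≠ 0) {η : ℝ} (hη : 0 < η) :
    ∃ (t r : ℝ) (σ : ℕ), σ ≤ 1 ∧ 0 < r ∧ r < η ∧ (-1) ^ σ * g t = r * z := by
  have key : ∀ w : ℂ, 0 < w.re → w.im ≠ 0 → ∃ t r : ℝ, 0 < r ∧ r < η ∧ g t = r * w := by
    intro w h1 h2
    rcases lt_or_gt_of_ne h2 with h3 | h3
    · obtain ⟨t, r, a1, a2, a3⟩ := exists_ray hc h0 h (z := (starRingEnd ℂ) w) (by simpa)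
        (by simpa) hη
      exact ⟨-t, r, a1, a2, by rw [hneg, a3]; simp⟩
    · exact exists_ray hc h0 h h1 h3 hη
  rcases lt_or_gt_of_ne hre with h1 | h1
  · obtain ⟨t, r, a1, a2, a3⟩ := key (-z) (by simpa) (by simpa)
    exact ⟨t, r, 1, le_rfl, a1, a2, by rw [a3]; ring⟩
  · obtain ⟨t, r, a1, a2, a3⟩ := key z h1 him
    exact ⟨t, r, 0, zero_le_one, a1, a2, by rw [a3]; ring⟩

lemma dense_hit {g : ℝ → ℂ} (hc : Continuous g) (h0 : g 0 = 0) (h : ∀ N, 0 < N → Marg N g)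
    (hneg : ∀ t, g (-t) = (starRingEnd ℂ) (g t)) (hper : Function.Periodic g (2 * Real.pi))
    {z : ℂ} (hre : z.re ≠ 0) (him : z.im ≠ 0) {δ : ℝ} (hδ : 0 < δ) :
    Dense {θ : ℝ | ∃ k : ℕ, ‖(-1) ^ k * (k * g (k * θ)) - z‖ < δ} := by
  rw [Metric.dense_iff]
  intro θ₀ ε hε
  have hpi := Real.pi_pos
  obtain ⟨t, r, σ, hσ, hr0, hr, hg⟩ := exists_ray' hc h0 h hneg hre him
    (η := min (δ / (2 * ‖z‖ + 1)) (1 / (2 * Real.pi / ε + 2))) (by positivity)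
  have hr1 : r < δ / (2 * ‖z‖ + 1) := hr.trans_le (min_le_left _ _)
  have hr2 : r < 1 / (2 * Real.pi / ε + 2) := hr.trans_le (min_le_right _ _)
  set q := ⌊1 / (2 * r)⌋₊ with hq
  have hq1 : (q : ℝ) ≤ 1 / (2 * r) := Nat.floor_le (by positivity)
  have hq2 : 1 / (2 * r) < q + 1 := Nat.lt_floor_add_one _
  rw [le_div_iff₀ (by positivity)] at hq1
  rw [div_lt_iff₀ (by positivity)] at hq2
  set k := 2 * q + σ with hk
  have hσ0 : (0 : ℝ) ≤ σ := Nat.cast_nonneg σ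
  have hσ1 : (σ : ℝ) ≤ 1 := by exact_mod_cast hσ
  have hkr : (k : ℝ) = 2 * q + σ := by rw [hk]; push_cast; ring
  have hk1 : |k * r - 1| ≤ 2 * r := by
    rw [hkr, abs_le]; constructor <;> nlinarith
  have hk2 : 2 * Real.pi / ε < k := by
    rw [lt_div_iff₀ (by positivity)] at hr2
    have := (abs_le.1 hk1).1
    by_contra h3
    push Not at h3
    nlinarith
  have hk0 : (0 : ℝ) < k := lt_trans (by positivity) hk2
  set l := ⌊(k * θ₀ - t) / (2 * Real.pi)⌋ with hl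
  have hl1 : (l : ℝ) ≤ (k * θ₀ - t) / (2 * Real.pi) := Int.floor_le _
  have hl2 : (k * θ₀ - t) / (2 * Real.pi) < l + 1 := Int.lt_floor_add_one _
  rw [le_div_iff₀ (by positivity)] at hl1
  rw [div_lt_iff₀ (by positivity)] at hl2
  refine ⟨(t + l * (2 * Real.pi)) / k, ?_, k, ?_⟩
  · rw [Metric.mem_ball, Real.dist_eq]
    have h1 : (t + l * (2 * Real.pi)) / k - θ₀ = (t + l * (2 * Real.pi) - k * θ₀) / k := by
      field_simp
    rw [h1, abs_div, abs_of_pos hk0, div_lt_iff₀ hk0, abs_lt]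
    rw [div_lt_iff₀ hε] at hk2
    constructor <;> nlinarith
  · have h1 : (k : ℝ) * ((t + l * (2 * Real.pi)) / k) = t + l * (2 * Real.pi) := by field_simp
    have h2 : (-1 : ℂ) ^ k = (-1) ^ σ := by rw [hk, pow_add, pow_mul]; simp
    rw [h1, hper.int_mul l, h2]
    have h3 : (-1 : ℂ) ^ σ * (k * g t) - z = ((k * r - 1 : ℝ) : ℂ) * z := by
      push_cast; linear_combination (k : ℂ) * hg
    rw [h3, norm_mul, Complex.norm_real, Real.norm_eq_abs]
    rw [lt_div_iff₀ (by positivity)] at hr1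
    nlinarith [norm_nonneg z, mul_le_mul_of_nonneg_right hk1 (norm_nonneg z)]

lemma exists_rat_ne (x : ℝ) {δ : ℝ} (hδ : 0 < δ) : ∃ q : ℚ, q ≠ 0 ∧ |x - q| < δ := by
  rcases le_total 0 x with h | h
  · obtain ⟨q, h1, h2⟩ := exists_rat_btwn (show x < x + δ by linarith)
    refine ⟨q, ?_, abs_lt.2 ⟨by linarith, by linarith⟩⟩
    rintro rfl
    simp at h1; linarith
  · obtain ⟨q, h1, h2⟩ := exists_rat_btwn (show x - δ < x by linarith)
    refine ⟨q, ?_, abs_lt.2 ⟨by linarith, by linarith⟩⟩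
    rintro rfl
    simp at h2; linarith

theorem exists_denseRange {g : ℝ → ℂ} (hc : Continuous g) (h0 : g 0 = 0)
    (h : ∀ N, 0 < N → Marg N g) (hneg : ∀ t, g (-t) = (starRingEnd ℂ) (g t))
    (hper : Function.Periodic g (2 * Real.pi)) :
    ∃ θ : ℝ, DenseRange fun k : ℕ => (-1 : ℂ) ^ k * (k * g (k * θ)) := by
  let O : {q : ℚ // q ≠ 0} × {q : ℚ // q ≠ 0} × ℕ → Set ℝ := fun i =>
    {θ : ℝ | ∃ k : ℕ, ‖(-1) ^ k * (k * g (k * θ)) - ⟨(i.1 : ℚ), (i.2.1 : ℚ)⟩‖ <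
      1 / ((i.2.2 : ℝ) + 1)}
  have h1 : ∀ i, IsOpen (O i) := by
    intro i
    simp only [O, Set.ofPred_exists]
    exact isOpen_iUnion fun k => isOpen_lt (by fun_prop) continuous_const
  have h2 : ∀ i, Dense (O i) := fun i =>
    dense_hit hc h0 h hneg hper (by simpa using i.1.2) (by simpa using i.2.1.2) (by positivity)
  obtain ⟨θ, hθ⟩ := (dense_iInter_of_isOpen h1 h2).nonempty
  refine ⟨θ, Metric.denseRange_iff.2 fun z ε hε => ?_⟩
  obtain ⟨p, hp, hp'⟩ := exists_rat_ne z.re (δ := ε / 3) (by positivity)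
  obtain ⟨q, hq, hq'⟩ := exists_rat_ne z.im (δ := ε / 3) (by positivity)
  obtain ⟨m, hm⟩ := exists_nat_one_div_lt (show 0 < ε / 3 by positivity)
  obtain ⟨k, hk⟩ := Set.mem_iInter.1 hθ (⟨p, hp⟩, ⟨q, hq⟩, m)
  refine ⟨k, ?_⟩
  have h3 : ‖z - ⟨(p : ℝ), (q : ℝ)⟩‖ ≤ |z.re - p| + |z.im - q| :=
    Complex.norm_le_abs_re_add_abs_im _
  rw [dist_eq_norm]
  have h4 := norm_sub_le_norm_sub_add_norm_sub z (⟨(p : ℝ), (q : ℝ)⟩ : ℂ)
    ((-1 : ℂ) ^ k * (k * g (k * θ)))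
  rw [norm_sub_rev] at hk
  simp only at hk
  linarith

end Pool.Agent.Lib.MP_1bd42a_an
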