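import Pool.Agent.Lib.MP_1bd42a_an.Stage

/-! The limiting lacunary series. -/

namespace Pool.Agent.Lib.MP_1bd42a_an

open Complex Finset Filter Topology

/-- The exponential series with frequencies `lam` and coefficients `a`. -/
noncomputable def G (lam : ℕ → ℤ) (a : ℕ → ℂ) (t : ℝ) : ℂ :=
  ∑' j, a j * exp (((lam j * t : ℝ) : ℂ) * I)

/-- Weight. -/
noncomputable def W (lam : ℕ → ℤ) (j : ℕ) : ℝ := 16 ^ j * |(lam j : ℝ)| ^ (j - 2)

lemma W_nonneg (lam : ℕ → ℤ) (j : ℕ) : 0 ≤ W lam j := by unfold W; positivity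

/-- Invariant of the recursion. -/
def Inv (n : ℕ) (p : (ℕ → ℤ) × (ℕ → ℝ) × ℝ) : Prop :=
  Good (n + 1) p.1 p.2.1 ∧ (∀ j, W p.1 j * |p.2.1 j| ≤ 100 - (1 / 2) ^ n) ∧ 0 < p.2.2 ∧
    ∀ g : ℝ → ℂ, (∀ t, ‖g t - gs (n + 1) p.1 p.2.1 t‖ ≤ p.2.2) → Marg (n + 1) g

/-- Relation between consecutive stages. -/
def Rel (n : ℕ) (p q : (ℕ → ℤ) × (ℕ → ℝ) × ℝ) : Prop :=
  (∀ j ≤ n + 1, q.1 j = p.1 j) ∧ (∀ j, |q.2.1 j - p.2.1 j| ≤ (1 / 2) ^ n) ∧ q.2.2 ≤ p.2.2 / 2 ∧
    ∀ t, ‖gs (n + 2) q.1 q.2.1 t - gs (n + 1) p.1 p.2.1 t‖ ≤ p.2.2 / 2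

lemma one_le_abs_lam {N : ℕ} {lam : ℕ → ℤ} {c : ℕ → ℝ} (h : Good N lam c) {j : ℕ} (h1 : 1 ≤ j)
    (h2 : j ≤ N) : 1 ≤ |(lam j : ℝ)| := by
  have := h.mono 0 j h1 h2
  rw [h.lam0, abs_zero] at this
  have h3 : (1 : ℤ) ≤ |lam j| := this
  exact_mod_cast h3

lemma inv_step (n : ℕ) (p : (ℕ → ℤ) × (ℕ → ℝ) × ℝ) (hp : Inv n p) :
    ∃ q, Inv (n + 1) q ∧ Rel n p q := by
  obtain ⟨lam, c, δ⟩ := p
  obtain ⟨hg, hW, hδ, -⟩ := hp
  simp only at hg hW hδ
  set S := ∑ j ∈ range (n + 2), W lam j with hS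
  have hS0 : 0 ≤ S := sum_nonneg fun j _ => W_nonneg _ _
  set ε := min (min ((1 / 2) ^ (n + 1) / (S + 1)) (1 / 16 ^ (n + 2))) (δ / (2 * (n + 3))) with hε
  have hε0 : 0 < ε := by positivity
  have hε1 : ε ≤ (1 / 2) ^ (n + 1) / (S + 1) := (min_le_left _ _).trans (min_le_left _ _)
  have hε2 : ε ≤ 1 / 16 ^ (n + 2) := (min_le_left _ _).trans (min_le_right _ _)
  have hε3 : ε ≤ δ / (2 * (n + 3)) := min_le_right _ _
  have hε4 : ε ≤ (1 / 2) ^ n := by
    refine hε1.trans ((div_le_self (by positivity) (by linarith)).trans ?_)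
    exact pow_le_pow_of_le_one (by norm_num) (by norm_num) (Nat.le_succ n)
  obtain ⟨lam', c', hg', hl, hc, hκ⟩ := step hg hε0
  obtain ⟨η, hη0, hη⟩ := margin (Nat.succ_pos (n + 1)) hg'
  have hκ' : |c' (n + 2)| ≤ ε := le_trans (le_mul_of_one_le_right (abs_nonneg _)
    (one_le_pow₀ (one_le_abs_lam hg' (by omega) le_rfl))) hκ
  have hp1 : (1 / 2 : ℝ) ^ (n + 1) ≤ 1 := pow_le_one₀ (by norm_num) (by norm_num)
  refine ⟨(lam', c', min η (δ / 2)), ⟨hg', ?_, by positivity, ?_⟩, hl, ?_, min_le_right _ _, ?_⟩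
  · intro j
    simp only
    rcases lt_trichotomy j (n + 2) with hj | hj | hj
    · have h1 : W lam' j = W lam j := by simp only [W, hl j (by omega)]
      have h2 : W lam j ≤ S := single_le_sum (fun j _ => W_nonneg lam j) (mem_range.2 hj)
      have h3 := abs_add_le (c' j - c j) (c j)
      simp only [sub_add_cancel] at h3
      have h4 := hc j (by omega)
      have h5 : W lam j * ε ≤ (1 / 2) ^ (n + 1) := by
        rw [le_div_iff₀ (by linarith)] at hε1
        nlinarith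
      have h6 := hW j
      have h7 : W lam j * |c' j| ≤ W lam j * (ε + |c j|) := by
        have := W_nonneg lam j
        gcongr
        linarith
      rw [h1]
      rw [pow_succ] at h5 ⊢
      linarith
    · subst hj
      have h1 : W lam' (n + 2) * |c' (n + 2)| ≤ 16 ^ (n + 2) * ε := by
        simp only [W, Nat.add_sub_cancel]
        rw [mul_assoc, mul_comm (_ ^ n)]
        gcongr
      rw [le_div_iff₀ (by positivity)] at hε2
      linarith
    · rw [hg'.supp j hj]; simp only [abs_zero, mul_zero]; linarith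
  · intro g hgc
    exact hη g fun t => (hgc t).trans (min_le_left _ _)
  · intro j
    simp only
    rcases lt_trichotomy j (n + 2) with hj | hj | hj
    · exact (hc j (by omega)).trans hε4
    · subst hj
      rw [hg.supp _ (by omega), sub_zero]
      exact hκ'.trans hε4
    · rw [hg'.supp j hj, hg.supp j (by omega)]; simp
  · intro t
    simp only
    rw [gs, gs, sum_range_succ (n := n + 2), add_sub_right_comm, ← sum_sub_distrib]
    refine (norm_add_le _ _).trans ?_
    have h4 : ‖∑ j ∈ range (n + 1 + 1), ((c' j : ℂ) * exp (((lam' j * t : ℝ) : ℂ) * I) -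
        (c j : ℂ) * exp (((lam j * t : ℝ) : ℂ) * I))‖ ≤ (n + 2) * ε := by
      refine (norm_sum_le _ _).trans ?_
      have : ∀ j ∈ range (n + 1 + 1), ‖(c' j : ℂ) * exp (((lam' j * t : ℝ) : ℂ) * I) -
          (c j : ℂ) * exp (((lam j * t : ℝ) : ℂ) * I)‖ ≤ ε := by
        intro j hj
        have hj' : j ≤ n + 1 := by simpa [Nat.lt_succ_iff] using hj
        rw [hl j hj', ← sub_mul, norm_mul, Complex.norm_exp_ofReal_mul_I,
          mul_one, ← ofReal_sub, Complex.norm_real]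
        exact hc j hj'
      have h5 := Finset.sum_le_card_nsmul _ _ _ this
      simp only [card_range, nsmul_eq_mul] at h5
      refine h5.trans (le_of_eq ?_)
      push_cast
      ring
    rw [norm_mul, Complex.norm_exp_ofReal_mul_I, mul_one, Complex.norm_real, Real.norm_eq_abs]
    rw [le_div_iff₀ (by positivity)] at hε3
    linarith

lemma exists_stages : ∃ p : ℕ → (ℕ → ℤ) × (ℕ → ℝ) × ℝ,
    (∀ n, Inv n (p n)) ∧ ∀ n, Rel n (p n) (p (n + 1)) := by
  obtain ⟨η, hη0, hη⟩ := margin Nat.one_pos good_one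
  have h0 : Inv 0 ((fun j => if j = 0 then 0 else -1),
      (fun j => if j = 0 then 1 else if j = 1 then -1 else 0), η) := by
    refine ⟨good_one, fun j => ?_, hη0, hη⟩
    rcases j with _ | _ | j <;> simp [W] <;> norm_num
  choose f hf using inv_step
  let q : ∀ n, {p // Inv n p} := fun n =>
    Nat.rec (motive := fun n => {p // Inv n p}) ⟨_, h0⟩ (fun n p => ⟨f n p.1 p.2, (hf n p.1 p.2).1⟩) n
  exact ⟨fun n => (q n).1, fun n => (q n).2, fun n => (hf n (q n).1 (q n).2).2⟩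

lemma summable_weight {lam : ℕ → ℤ} {c : ℕ → ℝ} (hW : ∀ j, W lam j * |c j| ≤ 100)
    (h1 : ∀ j, 1 ≤ j → 1 ≤ |(lam j : ℝ)|) (m : ℕ) :
    Summable fun j => 4 ^ j * |c j| * |(lam j : ℝ)| ^ m := by
  refine Summable.of_norm_bounded_eventually_nat (g := fun j => 100 * (1 / 4 : ℝ) ^ j)
    ((summable_geometric_of_lt_one (by norm_num) (by norm_num)).mul_left _) ?_
  filter_upwards [eventually_ge_atTop (m + 2)] with j hj
  rw [Real.norm_of_nonneg (by positivity)]
  have h2 : |(lam j : ℝ)| ^ m ≤ |(lam j : ℝ)| ^ (j - 2) :=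
    pow_le_pow_right₀ (h1 j (by omega)) (by omega)
  have h3 : (4 : ℝ) ^ j = 16 ^ j * (1 / 4) ^ j := by rw [← mul_pow]; norm_num
  calc 4 ^ j * |c j| * |(lam j : ℝ)| ^ m ≤ 4 ^ j * |c j| * |(lam j : ℝ)| ^ (j - 2) := by gcongr
    _ = W lam j * |c j| * (1 / 4) ^ j := by rw [h3, W]; ring
    _ ≤ 100 * (1 / 4) ^ j := by gcongr; exact hW j

lemma hasSum_eval {lam : ℕ → ℤ} {a : ℕ → ℂ} {n : ℕ}
    (h : ∀ m < n, HasSum (fun j => a j * (lam j : ℂ) ^ m) 0) (Q : Polynomial ℂ)
    (hQ : Q.natDegree < n) : HasSum (fun j => a j * Q.eval (lam j : ℂ)) 0 := by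
  simp only [Polynomial.eval_eq_sum_range' hQ, mul_sum]
  have := hasSum_sum (s := range n) (f := fun m j => Q.coeff m * (a j * (lam j : ℂ) ^ m))
    (a := fun m => Q.coeff m * 0) (fun m hm => (h m (mem_range.1 hm)).mul_left _)
  simp only [mul_zero, sum_const_zero] at this
  have h2 : (fun j => ∑ i ∈ range n, a j * (Q.coeff i * (lam j : ℂ) ^ i)) =
      fun j => ∑ i ∈ range n, Q.coeff i * (a j * (lam j : ℂ) ^ i) := by
    funext j; exact sum_congr rfl fun i _ => by ring
  rw [h2]; exact this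

lemma summable_of_le {lam : ℕ → ℤ} {c : ℕ → ℝ} (hW : ∀ j, W lam j * |c j| ≤ 100)
    (h1 : ∀ j, 1 ≤ j → 1 ≤ |(lam j : ℝ)|) {a : ℕ → ℂ} {C : ℝ}
    (ha : ∀ j, ‖a j‖ ≤ C * (4 ^ j * |c j|)) (m : ℕ) :
    Summable fun j => ‖a j‖ * |(lam j : ℝ)| ^ m := by
  refine Summable.of_nonneg_of_le (fun j => by positivity) (fun j => ?_)
    ((summable_weight hW h1 m).mul_left C)
  rw [← mul_assoc]
  gcongr
  exact ha j

lemma approx_unique {lam lam' : ℕ → ℤ} {c c' : ℕ → ℝ} (hW : ∀ j, W lam j * |c j| ≤ 100)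
    (h1 : ∀ j, 1 ≤ j → 1 ≤ |(lam j : ℝ)|) (hmono : ∀ i j, i < j → |lam i| < |lam j|)
    {a : ℕ → ℂ} {C : ℝ} (hC : 0 ≤ C) (ha : ∀ j, ‖a j‖ ≤ C * (4 ^ j * |c j|))
    (hmom : ∀ m, ∑' j, a j * (lam j : ℂ) ^ m = 0) {N : ℕ} (hg : Good N lam' c')
    (hl : ∀ j ≤ N, lam' j = lam j) {p : ℕ} (hp1 : 1 ≤ p) (hpN : p ≤ N) :
    ‖a p - a 0 * c' p‖ ≤ 100 * C * (1 / 2) ^ N := by
  classical
  set s := ((range (N + 1)).erase 0).erase p with hs
  have hcard : s.card = N - 1 := by
    rw [hs, card_erase_of_mem (by simp; omega), card_erase_of_mem (by simp), card_range]; omega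
  set Q : Polynomial ℂ := ∏ i ∈ s, (Polynomial.X - Polynomial.C (lam i : ℂ)) with hQ
  have hdeg : Q.natDegree < N := by
    rw [hQ, Polynomial.natDegree_finsetProd_X_sub_C_eq_card, hcard]; omega
  have heval : ∀ z, Q.eval z = ∏ i ∈ s, (z - lam i) := by
    intro z; simp [hQ, Polynomial.eval_prod]
  have hz : ∀ j ∈ s, Q.eval (lam j : ℂ) = 0 := by
    intro j hj; rw [heval]; exact prod_eq_zero hj (sub_self _)
  have hsplit : ∀ b : ℕ → ℂ, ∑ j ∈ range (N + 1), b j * Q.eval (lam j : ℂ) =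
      b 0 * Q.eval (lam 0 : ℂ) + b p * Q.eval (lam p : ℂ) := by
    intro b
    rw [← add_sum_erase _ _ (show 0 ∈ range (N + 1) by simp),
      ← add_sum_erase _ _ (show p ∈ (range (N + 1)).erase 0 by simp; omega), ← hs,
      sum_eq_zero (fun j hj => by rw [hz j hj, mul_zero]), add_zero]
  have hA : HasSum (fun j => a j * Q.eval (lam j : ℂ)) 0 := by
    refine hasSum_eval (fun m _ => ?_) Q hdeg
    rw [← hmom m]
    refine Summable.hasSum (Summable.of_norm ?_)
    simpa using summable_of_le hW h1 ha m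
  have hB : (c' 0 : ℂ) * Q.eval (lam 0 : ℂ) + c' p * Q.eval (lam p : ℂ) = 0 := by
    rw [← hsplit (fun j => (c' j : ℂ))]
    have h2 : HasSum (fun j => (c' j : ℂ) * Q.eval (lam j : ℂ)) 0 := by
      refine hasSum_eval (fun m hm => ?_) Q hdeg
      have h3 : HasSum (fun j => (c' j : ℂ) * (lam j : ℂ) ^ m)
          (∑ j ∈ range (N + 1), (c' j : ℂ) * (lam j : ℂ) ^ m) :=
        hasSum_sum_of_ne_finset_zero fun j hj => by
          rw [hg.supp j (by simpa using hj)]; simp
      have h4 : ∑ j ∈ range (N + 1), (c' j : ℂ) * (lam j : ℂ) ^ m = (mom N lam' c' m : ℂ) := by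
        rw [mom]; push_cast
        exact sum_congr rfl fun j hj => by rw [hl j (by simpa [Nat.lt_succ_iff] using hj)]
      rw [h4, hg.mom0 m hm] at h3
      exact h3
    have h3 : HasSum (fun j => (c' j : ℂ) * Q.eval (lam j : ℂ))
        (∑ j ∈ range (N + 1), (c' j : ℂ) * Q.eval (lam j : ℂ)) :=
      hasSum_sum_of_ne_finset_zero fun j hj => by
        rw [hg.supp j (by simpa using hj)]; simp
    exact h3.unique h2
  have htail : ‖∑' j, a (j + (N + 1)) * Q.eval (lam (j + (N + 1)) : ℂ)‖ ≤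
      100 * C * (1 / 2) ^ N := by
    have h2 : HasSum (fun j : ℕ => 100 * C * (1 / 2 : ℝ) ^ (N + 1) * (1 / 2) ^ j)
        (100 * C * (1 / 2 : ℝ) ^ (N + 1) * 2) := hasSum_geometric_two.mul_left _
    refine (tsum_of_norm_bounded h2 fun i => ?_).trans (le_of_eq (by ring))
    set j := i + (N + 1) with hj
    have h3 : ‖Q.eval (lam j : ℂ)‖ ≤ 2 ^ j * |(lam j : ℝ)| ^ (j - 2) := by
      rw [heval, norm_prod]
      have h4 : ∀ k ∈ s, ‖(lam j : ℂ) - lam k‖ ≤ 2 * |(lam j : ℝ)| := by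
        intro k hk
        have h5 : k < j := by
          have := mem_range.1 (mem_of_mem_erase (mem_of_mem_erase hk)); omega
        have h6 : |(lam k : ℝ)| ≤ |(lam j : ℝ)| := by exact_mod_cast (hmono k j h5).le
        refine (norm_sub_le _ _).trans ?_
        simp only [Complex.norm_intCast]
        linarith
      refine (prod_le_prod (fun k _ => norm_nonneg _) h4).trans ?_
      rw [prod_const, hcard, mul_pow]
      have h7 := h1 j (by omega)
      exact mul_le_mul (pow_le_pow_right₀ one_le_two (by omega))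
        (pow_le_pow_right₀ h7 (by omega)) (by positivity) (by positivity)
    have h8 : (4 : ℝ) ^ j * 2 ^ j = 16 ^ j * (1 / 2) ^ j := by
      rw [← mul_pow, ← mul_pow]; norm_num
    calc ‖a j * Q.eval (lam j : ℂ)‖ ≤ C * (4 ^ j * |c j|) * (2 ^ j * |(lam j : ℝ)| ^ (j - 2)) := by
          rw [norm_mul]; exact mul_le_mul (ha j) h3 (norm_nonneg _) (by positivity)
      _ = C * (4 ^ j * 2 ^ j) * |c j| * |(lam j : ℝ)| ^ (j - 2) := by ring
      _ = C * (W lam j * |c j|) * (1 / 2) ^ j := by rw [h8, W]; ring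
      _ ≤ C * 100 * (1 / 2) ^ j := by gcongr; exact hW j
      _ = 100 * C * (1 / 2) ^ (N + 1) * (1 / 2) ^ i := by rw [hj]; ring
  have hsum := hA.summable.sum_add_tsum_nat_add (N + 1)
  rw [hA.tsum_eq, hsplit] at hsum
  have hQp : 1 ≤ ‖Q.eval (lam p : ℂ)‖ := by
    rw [heval, norm_prod]
    refine le_trans (by simp) (prod_le_prod (f := fun _ => (1 : ℝ)) (fun k _ => zero_le_one)
      fun k hk => ?_)
    have h2 : lam p - lam k ≠ 0 := by
      intro h0
      have h3 : lam p = lam k := by omega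
      rcases lt_or_gt_of_ne (ne_of_mem_erase hk) with h4 | h4
      · have := hmono k p h4; rw [h3] at this; exact lt_irrefl _ this
      · have := hmono p k h4; rw [h3] at this; exact lt_irrefl _ this
    have h3 : (1 : ℤ) ≤ |lam p - lam k| := Int.one_le_abs h2
    have h4 : (lam p : ℂ) - lam k = ((lam p - lam k : ℤ) : ℂ) := by push_cast; ring
    rw [h4, Complex.norm_intCast]
    exact_mod_cast h3
  rw [hg.c0] at hB
  have h5 : (a p - a 0 * c' p) * Q.eval (lam p : ℂ) =
      -∑' j, a (j + (N + 1)) * Q.eval (lam (j + (N + 1)) : ℂ) := by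
    push_cast at hB
    linear_combination hsum - a 0 * hB
  have h6 := congrArg norm h5
  rw [norm_mul, norm_neg] at h6
  nlinarith [norm_nonneg (a p - a 0 * c' p)]

theorem exists_series : ∃ (lam : ℕ → ℤ) (c : ℕ → ℝ),
    (∀ j, W lam j * |c j| ≤ 100) ∧ (∀ j, 1 ≤ j → 1 ≤ |(lam j : ℝ)|) ∧ lam 0 = 0 ∧
    (∀ (a : ℕ → ℂ) (C : ℝ), 0 ≤ C → (∀ j, ‖a j‖ ≤ C * (4 ^ j * |c j|)) →
      (∀ m, ∑' j, a j * (lam j : ℂ) ^ m = 0) → ∀ p, a p = a 0 * c p) ∧
    G lam (fun j => c j) 0 = 0 ∧ ∀ N, 0 < N → Marg N (G lam fun j => c j) := by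
  obtain ⟨p, hI, hR⟩ := exists_stages
  let lam : ℕ → ℤ := fun j => (p j).1 j
  have hl0 : ∀ n i j, j ≤ n + 1 → (p (n + i)).1 j = (p n).1 j := by
    intro n i j hj
    induction i with
    | zero => rfl
    | succ i ih => rw [← add_assoc, (hR (n + i)).1 j (by omega), ih]
  have hl : ∀ n j, j ≤ n + 1 → (p n).1 j = lam j := by
    intro n j hj
    rcases le_total j n with h | h
    · obtain ⟨i, rfl⟩ := Nat.exists_eq_add_of_le h
      exact hl0 j i j (by omega)
    · obtain ⟨i, rfl⟩ := Nat.exists_eq_add_of_le h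
      exact (hl0 n i _ hj).symm
  have hcauchy : ∀ j, CauchySeq fun n => (p n).2.1 j := fun j =>
    cauchySeq_of_le_geometric (1 / 2) 1 (by norm_num) fun n => by
      rw [dist_comm, Real.dist_eq, one_mul]; exact (hR n).2.1 j
  choose c hc using fun j => cauchySeq_tendsto_of_complete (hcauchy j)
  have hWn : ∀ n j, W lam j * |(p n).2.1 j| ≤ 100 := by
    intro n j
    rcases le_or_gt j (n + 1) with h | h
    · have h1 : W lam j = W (p n).1 j := by simp only [W, hl n j h]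
      have := (hI n).2.1 j
      have h2 : (0 : ℝ) ≤ (1 / 2) ^ n := by positivity
      rw [h1]; linarith
    · rw [(hI n).1.supp j h]; simp
  have hW : ∀ j, W lam j * |c j| ≤ 100 := fun j =>
    le_of_tendsto' ((hc j).abs.const_mul (W lam j)) fun n => hWn n j
  have h1 : ∀ j, 1 ≤ j → 1 ≤ |(lam j : ℝ)| := fun j hj =>
    one_le_abs_lam (hI j).1 hj (by omega)
  have hmono : ∀ i j, i < j → |lam i| < |lam j| := by
    intro i j hij
    rw [← hl j i (by omega)]
    exact (hI j).1.mono i j hij (by omega)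
  have hgs : ∀ t, Tendsto (fun n => gs (n + 1) (p n).1 (p n).2.1 t) atTop
      (𝓝 (G lam (fun j => c j) t)) := by
    intro t
    have h2 : ∀ n, gs (n + 1) (p n).1 (p n).2.1 t = G lam (fun j => (p n).2.1 j) t := by
      intro n
      rw [G, tsum_eq_sum (s := range (n + 1 + 1)), gs]
      · exact sum_congr rfl fun j hj => by rw [hl n j (by simpa [Nat.lt_succ_iff] using hj)]
      · intro j hj
        rw [(hI n).1.supp j (by simpa using hj)]; simp
    simp only [h2, G]
    refine tendsto_tsum_of_dominated_convergence (bound := fun j => 100 * (1 / 16 : ℝ) ^ j)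
      ((summable_geometric_of_lt_one (by norm_num) (by norm_num)).mul_left _) (fun j => ?_)
      (Eventually.of_forall fun n j => ?_)
    · exact (Complex.continuous_ofReal.tendsto _ |>.comp (hc j)).mul_const _
    · rw [norm_mul, Complex.norm_exp_ofReal_mul_I, mul_one, Complex.norm_real, Real.norm_eq_abs]
      have h3 : (16 : ℝ) ^ j ≤ W lam j := by
        rw [W]
        refine le_mul_of_one_le_right (by positivity) ?_
        rcases Nat.eq_zero_or_pos j with rfl | hj
        · simp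
        · exact one_le_pow₀ (h1 j hj)
      have h4 : (16 : ℝ) ^ j * |(p n).2.1 j| ≤ 100 :=
        le_trans (by gcongr) (hWn n j)
      rw [one_div, inv_pow, ← div_eq_mul_inv, le_div_iff₀ (by positivity)]
      linarith
  refine ⟨lam, c, hW, h1, (hI 0).1.lam0, ?_, ?_, ?_⟩
  · intro a C hC ha hmom q
    rcases Nat.eq_zero_or_pos q with rfl | hq
    · have h2 : c 0 = 1 := by
        have h3 := hc 0
        simp only [(hI _).1.c0] at h3
        exact tendsto_nhds_unique h3 tendsto_const_nhds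
      simp [h2]
    · have h2 : Tendsto (fun n => ‖a q - a 0 * ((p n).2.1 q : ℂ)‖) atTop
          (𝓝 ‖a q - a 0 * (c q : ℂ)‖) :=
        (((Complex.continuous_ofReal.tendsto _ |>.comp (hc q)).const_mul _).const_sub _).norm
      have h3 : Tendsto (fun n : ℕ => 100 * C * (1 / 2 : ℝ) ^ (n + 1)) atTop (𝓝 0) := by
        have := ((tendsto_pow_atTop_nhds_zero_of_lt_one (r := (1 / 2 : ℝ)) (by norm_num)
          (by norm_num)).comp (tendsto_add_atTop_nat 1)).const_mul (100 * C)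
        simpa using this
      have h4 : ‖a q - a 0 * (c q : ℂ)‖ ≤ 0 := by
        refine le_of_tendsto_of_tendsto h2 h3 ?_
        filter_upwards [eventually_ge_atTop q] with n hn
        exact approx_unique hW h1 hmono hC ha hmom (hI n).1 (hl n) hq (by omega)
      exact sub_eq_zero.1 (norm_le_zero_iff.1 h4)
  · have h2 : ∀ n, gs (n + 1) (p n).1 (p n).2.1 0 = 0 := by
      intro n
      have h3 := (hI n).1.mom0 0 (Nat.succ_pos n)
      simp only [mom, pow_zero, mul_one] at h3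
      simp only [gs, mul_zero, ofReal_zero, zero_mul, Complex.exp_zero, mul_one]
      exact_mod_cast h3
    have h3 := hgs 0
    simp only [h2] at h3
    exact tendsto_nhds_unique h3 tendsto_const_nhds
  · intro N hN
    obtain ⟨n, rfl⟩ : ∃ n, N = n + 1 := ⟨N - 1, by omega⟩
    refine (hI n).2.2.2 _ fun t => ?_
    have h2 : ∀ i, ‖gs (n + i + 1) (p (n + i)).1 (p (n + i)).2.1 t -
        gs (n + 1) (p n).1 (p n).2.1 t‖ + (p (n + i)).2.2 ≤ (p n).2.2 := by
      intro i
      induction i with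
      | zero => simp
      | succ i ih =>
        have h3 := (hR (n + i)).2.2.1
        have h4 := (hR (n + i)).2.2.2 t
        have h5 := norm_sub_le_norm_sub_add_norm_sub
          (gs (n + i + 2) (p (n + i + 1)).1 (p (n + i + 1)).2.1 t)
          (gs (n + i + 1) (p (n + i)).1 (p (n + i)).2.1 t) (gs (n + 1) (p n).1 (p n).2.1 t)
        change ‖gs (n + i + 2) (p (n + i + 1)).1 (p (n + i + 1)).2.1 t -
          gs (n + 1) (p n).1 (p n).2.1 t‖ + (p (n + i + 1)).2.2 ≤ (p n).2.2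
        linarith
    refine le_of_tendsto (((hgs t).sub_const _).norm) ?_
    filter_upwards [eventually_ge_atTop n] with k hk
    obtain ⟨i, rfl⟩ := Nat.exists_eq_add_of_le hk
    have := h2 i
    have := (hI (n + i)).2.2.1
    linarith

end Pool.Agent.Lib.MP_1bd42a_an
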