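import Pool.Agent.Lib.MP_1bd42a_an.Limit

/-! Sequences `B k + k * g (k θ)` which are not dense. -/

namespace Pool.Agent.Lib.MP_1bd42a_an

open Complex Finset Filter Topology

/-- The complement of the open sector `Re z < -|Im z|`. -/
def InCone (z : ℂ) : Prop := 0 ≤ z.re + |z.im|

lemma InCone.mul {z : ℂ} (h : InCone z) {r : ℝ} (hr : 0 ≤ r) : InCone (r * z) := by
  unfold InCone at h ⊢
  simp only [re_ofReal_mul, im_ofReal_mul, abs_mul, abs_of_nonneg hr]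
  nlinarith

lemma exists_far (a : ℂ) (ha : a ≠ 0) (F : Finset ℂ) (hF : ∀ γ ∈ F, γ ≠ 0) (D : ℝ) :
    ∃ z : ℂ, (∀ h, InCone h → D ≤ ‖z - a * h‖) ∧ ∀ γ ∈ F, ∀ r : ℝ, D ≤ ‖z - r * γ‖ := by
  classical
  let w : ℂ → ℂ := fun γ => a * (starRingEnd ℂ) γ
  obtain ⟨s, ⟨hs1, hs2⟩, hs⟩ := ((Set.Ioo_infinite (show (-1 / 2 : ℝ) < 1 / 2 by norm_num)).sdiff
    (F.image fun γ => (w γ).im / (w γ).re).finite_toSet).nonempty
  let u : ℂ := ⟨-1, s⟩
  have hne : ∀ γ ∈ F, (u * w γ).im ≠ 0 := by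
    intro γ hγ h0
    have h1 : -(w γ).im + s * (w γ).re = 0 := by simpa [u] using h0
    by_cases h2 : (w γ).re = 0
    · have h3 : w γ = 0 := Complex.ext h2 (by rw [h2] at h1; simpa using h1)
      exact mul_ne_zero ha ((map_ne_zero _).2 (hF γ hγ)) h3
    · refine hs (by
        simp only [coe_image, Set.mem_image, mem_coe]
        refine ⟨γ, hγ, ?_⟩
        rw [div_eq_iff h2]; linarith)
  have e1 : ∀ᶠ R : ℝ in atTop, ∀ γ ∈ F, D * ‖γ‖ / |(u * w γ).im| ≤ R := by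
    rw [eventually_all_finset]
    exact fun γ _ => eventually_ge_atTop _
  obtain ⟨R, e1, e2, e3⟩ := (e1.and ((eventually_ge_atTop (4 * D / ‖a‖)).and
    (eventually_ge_atTop 0))).exists
  have ha0 : 0 < ‖a‖ := norm_pos_iff.2 ha
  refine ⟨a * (R * u), fun h hh => ?_, fun γ hγ r => ?_⟩
  · rw [← mul_sub, norm_mul]
    rw [div_le_iff₀ ha0] at e2
    have h1 : R / 4 ≤ ‖(R : ℂ) * u - h‖ := by
      have h2 := Complex.abs_re_le_norm ((R : ℂ) * u - h)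
      have h3 := Complex.abs_im_le_norm ((R : ℂ) * u - h)
      simp only [sub_re, sub_im, re_ofReal_mul, im_ofReal_mul, u] at h2 h3
      have h4 : |R * s| ≤ R / 2 := by
        rw [abs_mul, abs_of_nonneg e3]
        have : |s| ≤ 1 / 2 := abs_le.2 ⟨by linarith, hs2.le⟩
        nlinarith
      have h5 := neg_abs_le (R * -1 - h.re)
      have h6 : |h.im| ≤ |R * s| + |R * s - h.im| := by
        have := abs_sub (R * s) (R * s - h.im)
        simpa using this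
      unfold InCone at hh
      simp only [u]
      linarith
    nlinarith
  · have h0 : 0 < ‖γ‖ := norm_pos_iff.2 (hF γ hγ)
    have h1 := e1 γ hγ
    rw [div_le_iff₀ (abs_pos.2 (hne γ hγ))] at h1
    have h2 : ((a * (R * u) - r * γ) * (starRingEnd ℂ) γ).im = R * (u * w γ).im := by
      simp only [w, mul_im, mul_re, sub_re, sub_im, ofReal_re, ofReal_im, conj_re, conj_im]
      ring
    have h3 := Complex.abs_im_le_norm ((a * (R * u) - r * γ) * (starRingEnd ℂ) γ)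
    rw [h2, abs_mul, abs_of_nonneg e3, norm_mul, Complex.norm_conj] at h3
    exact le_of_mul_le_mul_right (h1.trans h3) h0

lemma local_tame {f : ℝ → ℂ} {m : ℕ} {γ : ℂ} {K : ℝ} (hγ : γ ≠ 0) (hK : 0 ≤ K)
    (h : ∀ ε : ℝ, ‖f ε - γ * ε ^ m‖ ≤ K * |ε| ^ (m + 1)) :
    ∃ ρ : ℝ, 0 < ρ ∧ ∀ D : ℝ, ∀ᶠ k : ℕ in atTop, ∀ ε : ℝ, |ε| < ρ → ‖k * f ε‖ ≤ D →
      ∃ r : ℝ, ‖k * f ε - r * γ‖ ≤ 1 := by
  have hγ0 : 0 < ‖γ‖ := norm_pos_iff.2 hγ
  refine ⟨‖γ‖ / (2 * K + 1), by positivity, fun D => ?_⟩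
  set η := ‖γ‖ / (2 * |D| * K + 1) with hη
  have hη0 : 0 < η := by positivity
  filter_upwards [tendsto_natCast_atTop_atTop.eventually_gt_atTop (2 * |D| / (‖γ‖ * η ^ m))]
    with k hk ε hε hD
  have hk0 : (0 : ℝ) ≤ k := Nat.cast_nonneg k
  have h1 := h ε
  have h2 : ‖γ * (ε : ℂ) ^ m‖ = ‖γ‖ * |ε| ^ m := by simp
  have h3 : ‖γ‖ * |ε| ^ m ≤ ‖f ε‖ + K * |ε| ^ (m + 1) := by
    have := norm_sub_le (f ε) (f ε - γ * ε ^ m)
    rw [sub_sub_cancel, h2] at this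
    linarith
  rw [lt_div_iff₀ (by positivity)] at hε
  have hp : 0 ≤ |ε| ^ m := by positivity
  have h4 : K * |ε| ^ (m + 1) ≤ ‖γ‖ * |ε| ^ m / 2 := by
    rw [pow_succ]
    have : K * |ε| ≤ ‖γ‖ / 2 := by nlinarith [abs_nonneg ε]
    nlinarith
  rw [norm_mul, Complex.norm_natCast] at hD
  have h5 : k * (‖γ‖ * |ε| ^ m) ≤ 2 * |D| := by
    have : k * (‖γ‖ * |ε| ^ m) ≤ k * (2 * ‖f ε‖) :=
      mul_le_mul_of_nonneg_left (by linarith) hk0
    linarith [le_abs_self D]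
  have h6 : |ε| < η := by
    by_contra h7
    push Not at h7
    have h8 : η ^ m ≤ |ε| ^ m := pow_le_pow_left₀ hη0.le h7 m
    rw [div_lt_iff₀ (by positivity)] at hk
    have : k * (‖γ‖ * η ^ m) ≤ k * (‖γ‖ * |ε| ^ m) := by gcongr
    linarith
  refine ⟨k * ε ^ m, ?_⟩
  have h7 : (k : ℂ) * f ε - ((k * ε ^ m : ℝ) : ℂ) * γ = k * (f ε - γ * ε ^ m) := by
    push_cast; ring
  rw [h7, norm_mul, Complex.norm_natCast]
  rw [hη, lt_div_iff₀ (by positivity)] at h6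
  have h8 : k * ‖f ε - γ * ε ^ m‖ ≤ k * (K * |ε| ^ (m + 1)) := by gcongr
  refine h8.trans (le_of_mul_le_mul_right ?_ hγ0)
  have h9 : k * (K * |ε| ^ (m + 1)) * ‖γ‖ = k * (‖γ‖ * |ε| ^ m) * (K * |ε|) := by ring
  rw [h9]
  have h10 : k * (‖γ‖ * |ε| ^ m) * (K * |ε|) ≤ 2 * |D| * (K * |ε|) := by gcongr
  nlinarith [abs_nonneg ε]

theorem not_denseRange {g : ℝ → ℂ} (hper : Function.Periodic g (2 * Real.pi)) {a : ℂ}
    (ha : a ≠ 0)
    (hloc : ∀ t, (∀ ε : ℝ, |ε| ≤ 1 → ∃ h, InCone h ∧ g (t + ε) = a * h) ∨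
      ∃ (m : ℕ) (γ : ℂ) (K : ℝ), γ ≠ 0 ∧ 0 ≤ K ∧
        ∀ ε : ℝ, ‖g (t + ε) - γ * ε ^ m‖ ≤ K * |ε| ^ (m + 1))
    (θ : ℝ) (B : ℕ → ℂ) (C : ℝ) (hB : ∀ k, ‖B k‖ ≤ C) :
    ¬ DenseRange fun k : ℕ => B k + k * g (k * θ) := by
  classical
  have h1 : ∀ t, ∃ (γ : ℂ) (ρ : ℝ), γ ≠ 0 ∧ 0 < ρ ∧ ∀ D : ℝ, ∀ᶠ k : ℕ in atTop, ∀ ε : ℝ,
      |ε| < ρ → ‖k * g (t + ε)‖ ≤ D →
        (∃ h, InCone h ∧ k * g (t + ε) = a * h) ∨ ∃ r : ℝ, ‖k * g (t + ε) - r * γ‖ ≤ 1 := by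
    intro t
    rcases hloc t with h | ⟨m, γ, K, hγ, hK, h⟩
    · refine ⟨1, 1, one_ne_zero, one_pos, fun D => Eventually.of_forall fun k ε hε _ => ?_⟩
      obtain ⟨z, hz, hz'⟩ := h ε hε.le
      refine Or.inl ⟨(k : ℝ) * z, hz.mul (Nat.cast_nonneg k), ?_⟩
      rw [hz']; push_cast; ring
    · obtain ⟨ρ, hρ, h2⟩ := local_tame (f := fun ε => g (t + ε)) hγ hK h
      exact ⟨γ, ρ, hγ, hρ, fun D => (h2 D).mono fun k hk ε hε hD => Or.inr (hk ε hε hD)⟩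
  choose γ ρ hγ hρ h1 using h1
  obtain ⟨s, -, hs⟩ := (isCompact_Icc (a := (0 : ℝ)) (b := 2 * Real.pi)).elim_nhds_subcover
    (fun t => Metric.ball t (ρ t)) fun t _ => Metric.ball_mem_nhds t (hρ t)
  obtain ⟨z, hz1, hz2⟩ := exists_far a ha (s.image γ) (by
    intro w hw
    obtain ⟨t, -, rfl⟩ := mem_image.1 hw
    exact hγ t) (C + 2)
  have h2 : ∀ᶠ k : ℕ in atTop, 1 ≤ ‖B k + k * g (k * θ) - z‖ := by
    filter_upwards [(eventually_all_finset s).2 fun t _ => h1 t (‖z‖ + C + 1)] with k hk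
    by_contra h3
    push Not at h3
    obtain ⟨y, hy, hgy⟩ := hper.exists_mem_Ico₀ Real.two_pi_pos (k * θ)
    obtain ⟨t, ht, hyt⟩ : ∃ t ∈ s, y ∈ Metric.ball t (ρ t) := by
      simpa using hs (Set.Ico_subset_Icc_self hy)
    have h4 : ‖z - k * g (k * θ)‖ < C + 1 := by
      have : z - k * g (k * θ) = B k - (B k + k * g (k * θ) - z) := by ring
      rw [this]
      linarith [norm_sub_le (B k) (B k + k * g (k * θ) - z), hB k]
    have h5 : t + (y - t) = y := by ring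
    have h6 := hk t ht (y - t) (by simpa [Real.dist_eq] using hyt)
    rw [h5, ← hgy] at h6
    have h7 : ‖k * g (k * θ)‖ ≤ ‖z‖ + C + 1 := by
      have := norm_sub_le z (z - k * g (k * θ))
      rw [sub_sub_cancel] at this
      linarith
    rcases h6 h7 with ⟨h, hh, h8⟩ | ⟨r, hr⟩
    · have := hz1 h hh
      rw [← h8] at this
      linarith
    · have := hz2 (γ t) (mem_image_of_mem γ ht) r
      have h9 := norm_sub_le_norm_sub_add_norm_sub z (k * g (k * θ)) (r * γ t)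
      linarith
  obtain ⟨K, hK⟩ := eventually_atTop.1 h2
  intro hd
  let F : Finset ℂ := (range K).image fun k : ℕ => B k + k * g (k * θ)
  have h3 : (Metric.ball z 1 \ (F : Set ℂ)).Nonempty :=
    ((infinite_of_mem_nhds z (Metric.ball_mem_nhds z one_pos)).sdiff F.finite_toSet).nonempty
  obtain ⟨k, hk1, hk2⟩ := hd.exists_mem_open
    (Metric.isOpen_ball.sdiff F.finite_toSet.isClosed) h3
  rcases lt_or_ge k K with h | h
  · exact hk2 (mem_coe.2 (mem_image_of_mem _ (mem_range.2 h)))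
  · have := hK k h
    rw [Metric.mem_ball, dist_eq_norm] at hk1
    linarith

lemma periodic_G (lam : ℕ → ℤ) (a : ℕ → ℂ) : Function.Periodic (G lam a) (2 * Real.pi) := by
  intro t
  simp only [G]
  congr 1
  funext j
  congr 1
  have : (((lam j * (t + 2 * Real.pi) : ℝ) : ℂ) * I) =
      ((lam j * t : ℝ) : ℂ) * I + lam j * (2 * Real.pi * I) := by push_cast; ring
  rw [this, Complex.exp_add, Complex.exp_int_mul_two_pi_mul_I, mul_one]

lemma G_add (lam : ℕ → ℤ) (a : ℕ → ℂ) (t ε : ℝ) :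
    G lam a (t + ε) = G lam (fun j => a j * exp (((lam j * t : ℝ) : ℂ) * I)) ε := by
  simp only [G]
  congr 1
  funext j
  rw [mul_assoc, ← Complex.exp_add]
  congr 2
  push_cast; ring

lemma G_neg (lam : ℕ → ℤ) (c : ℕ → ℝ) (t : ℝ) :
    G lam (fun j => c j) (-t) = (starRingEnd ℂ) (G lam (fun j => c j) t) := by
  simp only [G]
  rw [Complex.conj_tsum]
  congr 1
  funext j
  simp [← Complex.exp_conj]

lemma continuous_G {lam : ℕ → ℤ} {a : ℕ → ℂ} (ha : Summable fun j => ‖a j‖) :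
    Continuous (G lam a) := by
  refine continuous_tsum (fun j => by fun_prop) ha fun j t => ?_
  rw [norm_mul, Complex.norm_exp_ofReal_mul_I, mul_one]

lemma taylor_G {lam : ℕ → ℤ} {a : ℕ → ℂ}
    (ha : ∀ m, Summable fun j => ‖a j‖ * |(lam j : ℝ)| ^ m)
    (h : ∃ m, ∑' j, a j * (lam j : ℂ) ^ m ≠ 0) :
    ∃ (m : ℕ) (γ : ℂ) (K : ℝ), γ ≠ 0 ∧ 0 ≤ K ∧
      ∀ ε : ℝ, ‖G lam a ε - γ * ε ^ m‖ ≤ K * |ε| ^ (m + 1) := by
  classical
  set m := Nat.find h with hm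
  have h1 : ∑' j, a j * (lam j : ℂ) ^ m ≠ 0 := Nat.find_spec h
  have h2 : ∀ i < m, ∑' j, a j * (lam j : ℂ) ^ i = 0 := fun i hi => by
    simpa using Nat.find_min h hi
  have hs : ∀ i, Summable fun j => a j * (lam j : ℂ) ^ i := fun i =>
    Summable.of_norm (by simpa using ha i)
  refine ⟨m, (∑' j, a j * (lam j : ℂ) ^ m) * (I ^ m / m.factorial),
    ((m + 1 : ℕ) + 3) * ∑' j, ‖a j‖ * |(lam j : ℝ)| ^ (m + 1), ?_, ?_, fun ε => ?_⟩
  · refine mul_ne_zero h1 (div_ne_zero (pow_ne_zero _ I_ne_zero) ?_)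
    exact_mod_cast m.factorial_ne_zero
  · exact mul_nonneg (by positivity) (tsum_nonneg fun j => by positivity)
  · have h3 : HasSum (fun j => a j * exp (((lam j * ε : ℝ) : ℂ) * I)) (G lam a ε) := by
      refine Summable.hasSum (Summable.of_norm ?_)
      simpa [Complex.norm_exp_ofReal_mul_I, -ofReal_mul] using ha 0
    have h4 := hasSum_sum (s := range (m + 1))
      (f := fun i j => a j * (lam j : ℂ) ^ i * (((ε : ℂ) * I) ^ i / i.factorial))
      (fun i _ => (hs i).hasSum.mul_right _)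
    rw [sum_range_succ, sum_eq_zero (fun i hi => by rw [h2 i (mem_range.1 hi), zero_mul]),
      zero_add] at h4
    have h5 := h3.sub h4
    have h6 : (fun j => a j * exp (((lam j * ε : ℝ) : ℂ) * I) -
        ∑ i ∈ range (m + 1), a j * (lam j : ℂ) ^ i * (((ε : ℂ) * I) ^ i / i.factorial)) =
        fun j => a j * R (m + 1) (lam j * ε) := by
      funext j
      rw [R, mul_sub, mul_sum]
      congr 1
      refine sum_congr rfl fun i _ => ?_
      push_cast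
      rw [mul_assoc (lam j : ℂ), mul_pow (lam j : ℂ)]; ring
    rw [h6] at h5
    have h7 : (∑' j, a j * (lam j : ℂ) ^ m) * (I ^ m / m.factorial) * (ε : ℂ) ^ m =
        (∑' j, a j * (lam j : ℂ) ^ m) * (((ε : ℂ) * I) ^ m / m.factorial) := by
      rw [mul_pow]; ring
    rw [h7, ← h5.tsum_eq]
    have h8 := ((ha (m + 1)).hasSum.mul_left (((m + 1 : ℕ) : ℝ) + 3)).mul_right (|ε| ^ (m + 1))
    refine tsum_of_norm_bounded h8 fun j => ?_
    rw [norm_mul]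
    have h9 := norm_R_le (m + 1) (lam j * ε)
    rw [abs_mul, mul_pow] at h9
    calc ‖a j‖ * ‖R (m + 1) (lam j * ε)‖
        ≤ ‖a j‖ * ((((m + 1 : ℕ) : ℝ) + 3) * (|(lam j : ℝ)| ^ (m + 1) * |ε| ^ (m + 1))) := by
          gcongr
      _ = _ := by ring

lemma L_pos_of_marg {g : ℝ → ℂ} (h : ∀ N, 0 < N → Marg N g) {t : ℝ} (h0 : 0 < t) (h1 : t ≤ 1) :
    0 < L (g t) := by
  obtain ⟨N, hN⟩ := exists_nat_one_div_lt h0
  refine (h (N + 1) N.succ_pos).1 t ?_ h1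
  push_cast; exact hN.le

lemma inCone_G {lam : ℕ → ℤ} {c : ℕ → ℝ} (h0 : G lam (fun j => c j) 0 = 0)
    (h : ∀ N, 0 < N → Marg N (G lam fun j => c j)) {ε : ℝ} (hε : |ε| ≤ 1) :
    InCone (G lam (fun j => c j) ε) := by
  obtain ⟨h1, h2⟩ := abs_le.1 hε
  rcases lt_trichotomy ε 0 with h3 | rfl | h3
  · have h4 := L_pos_of_marg h (t := -ε) (by linarith) (by linarith)
    rw [G_neg] at h4
    simp only [L, conj_re, conj_im] at h4
    have := neg_abs_le (G lam (fun j => c j) ε).im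
    unfold InCone; linarith
  · rw [h0]; simp [InCone]
  · have h4 := L_pos_of_marg h h3 h2
    simp only [L] at h4
    have := le_abs_self (G lam (fun j => c j) ε).im
    unfold InCone; linarith

/-- No sequence `B k + k * G lam a (k θ)` with `B` bounded and `a` in the weighted class is
dense. -/
theorem not_denseRange_G {lam : ℕ → ℤ} {c : ℕ → ℝ} (hW : ∀ j, W lam j * |c j| ≤ 100)
    (h1 : ∀ j, 1 ≤ j → 1 ≤ |(lam j : ℝ)|) (hl0 : lam 0 = 0)
    (huniq : ∀ (a : ℕ → ℂ) (C : ℝ), 0 ≤ C → (∀ j, ‖a j‖ ≤ C * (4 ^ j * |c j|)) →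
      (∀ m, ∑' j, a j * (lam j : ℂ) ^ m = 0) → ∀ p, a p = a 0 * c p)
    (h0 : G lam (fun j => c j) 0 = 0) (h : ∀ N, 0 < N → Marg N (G lam fun j => c j))
    {a : ℕ → ℂ} {C : ℝ} (hC : 0 ≤ C) (ha : ∀ j, ‖a j‖ ≤ C * (4 ^ j * |c j|))
    (θ : ℝ) (B : ℕ → ℂ) (D : ℝ) (hB : ∀ k, ‖B k‖ ≤ D) :
    ¬ DenseRange fun k : ℕ => B k + k * G lam a (k * θ) := by
  classical
  refine not_denseRange (periodic_G lam a) (a := if a 0 = 0 then 1 else a 0)
    (by split_ifs with h2 <;> simp [h2]) (fun t => ?_) θ B D hB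
  set a' : ℕ → ℂ := fun j => a j * exp (((lam j * t : ℝ) : ℂ) * I) with ha'
  have ha2 : ∀ j, ‖a' j‖ ≤ C * (4 ^ j * |c j|) := fun j => by
    simp only [ha']
    rw [norm_mul, Complex.norm_exp_ofReal_mul_I, mul_one]; exact ha j
  by_cases h2 : ∃ m, ∑' j, a' j * (lam j : ℂ) ^ m ≠ 0
  · right
    simp only [G_add]
    exact taylor_G (summable_of_le hW h1 ha2) h2
  · left
    push Not at h2
    have h3 := huniq a' C hC ha2 h2
    have h4 : a' 0 = a 0 := by simp [ha', hl0]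
    intro ε hε
    have h5 : G lam a (t + ε) = a 0 * G lam (fun j => c j) ε := by
      rw [G_add, ← ha', G, G, ← tsum_mul_left]
      congr 1
      funext j
      rw [h3 j, h4, mul_assoc]
    split_ifs with h6
    · exact ⟨0, by simp [InCone], by rw [h5, h6]; simp⟩
    · exact ⟨_, inCone_G h0 h hε, h5⟩

end Pool.Agent.Lib.MP_1bd42a_an
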