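import Pool.Agent.Lib.MP_1bd42a_an.Dense

/-! The block diagonal operator on the Hilbert space `ℓ²(ℕ, ℂ²)`. -/

namespace Pool.Agent.Lib.MP_1bd42a_an

open Complex Finset Filter Topology

/-- The plane `ℂ²`. -/
abbrev E2 : Type := EuclideanSpace ℂ (Fin 2)

/-- The Hilbert space `ℓ²(ℕ, ℂ²)`. -/
abbrev H2 : Type := lp (fun _ : ℕ => EuclideanSpace ℂ (Fin 2)) 2

/-- First basis vector. -/
noncomputable def e0 : E2 := EuclideanSpace.single 0 1

/-- Second basis vector. -/
noncomputable def e1 : E2 := EuclideanSpace.single 1 1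

/-- The nilpotent Jordan part. -/
noncomputable def nil : E2 →L[ℂ] E2 := (EuclideanSpace.proj (1 : Fin 2)).smulRight e0

lemma nil_apply (v : E2) : nil v = v 1 • e0 := by simp [nil]

lemma nil_nil (v : E2) : nil (nil v) = 0 := by simp [nil_apply, e0]

lemma norm_e0 : ‖e0‖ = 1 := by simp [e0]

lemma norm_e1 : ‖e1‖ = 1 := by simp [e1]

lemma exists_diag (B : E2 →L[ℂ] E2) (m : ℕ → ℂ) (C : ℝ) (hC : 0 ≤ C) (hm : ∀ j, ‖m j‖ ≤ C) :
    ∃ D : H2 →L[ℂ] H2, ∀ x j, D x j = m j • B (x j) :=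
  ⟨lp.mapCLM 2 (fun j => m j • B) (K := C * ‖B‖) (by positivity) (fun j => by
    rw [norm_smul]; gcongr; exact hm j), fun _ _ => rfl⟩

lemma geom_mem (v : E2) : Memℓp (fun j : ℕ => ((1 / 2 : ℂ) ^ j) • v) 2 := by
  refine memℓp_gen ?_
  have h : Summable fun j : ℕ => ‖v‖ ^ 2 * (1 / 4 : ℝ) ^ j :=
    (summable_geometric_of_lt_one (by norm_num) (by norm_num)).mul_left _
  refine h.congr fun j => ?_
  have h2 : (1 / 4 : ℝ) ^ j = ((1 / 2) ^ j) ^ 2 := by rw [← pow_mul, mul_comm, pow_mul]; norm_num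
  rw [h2]
  simp [norm_smul, mul_pow, mul_comm]

/-- An operator `S` on `ℓ²(ℕ, ℂ²)` without dense numerical orbits such that `-S` has a dense
numerical orbit. -/
theorem exists_op : ∃ S : H2 →L[ℂ] H2,
    (∀ (x : H2) (f : H2 →L[ℂ] ℂ), ¬ DenseRange fun k : ℕ => f ((S ^ k) x)) ∧
    ∃ (x : H2) (f : H2 →L[ℂ] ℂ), DenseRange fun k : ℕ => f (((-S) ^ k) x) := by
  classical
  obtain ⟨lam, c, hW, h1, hl0, huniq, h0, hM⟩ := exists_series
  have hw : ∀ j, (4 : ℝ) ^ j * |c j| ≤ 100 := by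
    intro j
    refine le_trans ?_ (hW j)
    gcongr
    rw [W]
    refine le_trans (pow_le_pow_left₀ (by norm_num) (by norm_num : (4 : ℝ) ≤ 16) j)
      (le_mul_of_one_le_right (by positivity) ?_)
    rcases Nat.eq_zero_or_pos j with rfl | hj
    · simp
    · exact one_le_pow₀ (h1 j hj)
  have hsum : Summable fun j => ‖(c j : ℂ)‖ := by
    have := summable_of_le hW h1 (a := fun j => (c j : ℂ)) (C := 1) (fun j => by
      rw [one_mul, Complex.norm_real, Real.norm_eq_abs]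
      exact le_mul_of_one_le_left (abs_nonneg _) (one_le_pow₀ (by norm_num))) 0
    simpa using this
  obtain ⟨θ, hθ⟩ := exists_denseRange (continuous_G (lam := lam) hsum) h0 hM (G_neg lam c)
    (periodic_G _ _)
  let μ : ℕ → ℂ := fun j => exp (((lam j * θ : ℝ) : ℂ) * I)
  have hμ : ∀ j, ‖μ j‖ = 1 := fun j => Complex.norm_exp_ofReal_mul_I _
  have hμk : ∀ j (k : ℕ), μ j ^ k = exp (((lam j * (k * θ) : ℝ) : ℂ) * I) := by
    intro j k
    simp only [μ]
    rw [← Complex.exp_nat_mul]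
    congr 1
    push_cast; ring
  let w : ℕ → ℂ := fun j => ((4 ^ j * c j : ℝ) : ℂ)
  have hw' : ∀ j, ‖w j‖ = 4 ^ j * |c j| := fun j => by simp [w]
  obtain ⟨U, hU⟩ := exists_diag (ContinuousLinearMap.id ℂ E2) μ 1 zero_le_one fun j => (hμ j).le
  obtain ⟨N, hN⟩ := exists_diag nil w 100 (by norm_num) fun j => (hw' j).trans_le (hw j)
  simp only [ContinuousLinearMap.id_apply] at hU
  have hUk : ∀ (k : ℕ) x j, (U ^ k) x j = μ j ^ k • x j := by
    intro k x j
    induction k with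
    | zero => simp
    | succ k ih => rw [pow_succ', mul_apply_eq_comp, hU, ih, smul_smul, pow_succ']
  have hS : ∀ (k : ℕ) x, ((U + U * N) ^ k) x = (U ^ k) x + (k : ℂ) • (U ^ k) (N x) := by
    intro k x
    induction k with
    | zero => simp
    | succ k ih =>
      rw [pow_succ', mul_apply_eq_comp, ih]
      ext1
      funext j
      simp only [add_apply, mul_apply_eq_comp, lp.coeFn_add,
        lp.coeFn_smul, Pi.add_apply, Pi.smul_apply, hU, hN, hUk, map_add, map_smul, nil_nil,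
        smul_zero, add_zero]
      push_cast
      rw [pow_succ']
      module
  have hB : ∀ (k : ℕ) x, ‖(U ^ k) x‖ ≤ ‖x‖ := fun k x =>
    lp.norm_mono (by norm_num) fun j => by rw [hUk, norm_smul, norm_pow, hμ, one_pow, one_mul]
  have hG : ∀ (k : ℕ) (x : H2) (f : H2 →L[ℂ] ℂ), f ((U ^ k) (N x)) =
      G lam (fun j => w j * x j 1 * f (lp.single 2 j e0)) (k * θ) := by
    intro k x f
    have h2 := (lp.hasSum_single (by norm_num) ((U ^ k) (N x))).mapL f
    rw [← h2.tsum_eq, G]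
    congr 1
    funext j
    rw [hUk, hN, nil_apply, smul_smul, smul_smul, lp.single_smul, map_smul, hμk, smul_eq_mul]
    ring
  refine ⟨U + U * N, fun x f => ?_, ?_⟩
  · simp only [hS, map_add, map_smul, smul_eq_mul, hG]
    refine not_denseRange_G hW h1 hl0 huniq h0 hM (C := ‖x‖ * ‖f‖) (by positivity) (fun j => ?_)
      θ _ (‖f‖ * ‖x‖) fun k => (f.le_opNorm _).trans (by gcongr; exact hB k x)
    have h2 : ‖x j 1‖ ≤ ‖x‖ :=
      (PiLp.norm_apply_le (x j) 1).trans (lp.norm_apply_le_norm (by norm_num) x j)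
    have h3 : ‖f (lp.single 2 j e0)‖ ≤ ‖f‖ := by
      refine (f.le_opNorm _).trans (le_of_eq ?_)
      rw [lp.norm_single (by norm_num), norm_e0, mul_one]
    rw [norm_mul, norm_mul, hw']
    calc 4 ^ j * |c j| * ‖x j 1‖ * ‖f (lp.single 2 j e0)‖ ≤ 4 ^ j * |c j| * ‖x‖ * ‖f‖ := by gcongr
      _ = _ := by ring
  · let x : H2 := ⟨_, geom_mem e1⟩
    let v : H2 := ⟨_, geom_mem e0⟩
    have hx : ∀ j, x j = ((1 / 2 : ℂ) ^ j) • e1 := fun _ => rfl
    have hv : ∀ j, v j = ((1 / 2 : ℂ) ^ j) • e0 := fun _ => rfl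
    refine ⟨x, innerSL ℂ v, ?_⟩
    have h2 : ∀ k : ℕ, innerSL ℂ v ((U ^ k) x) = 0 := by
      intro k
      rw [innerSL_apply_apply, lp.inner_eq_tsum]
      simp only [hUk, hx, hv]
      simp [inner_smul_left, inner_smul_right, e0, e1, EuclideanSpace.inner_single_left]
    have h3 : (fun j => w j * x j 1 * innerSL ℂ v (lp.single 2 j e0)) = fun j => (c j : ℂ) := by
      funext j
      rw [innerSL_apply_apply, lp.inner_single_right, hx, hv, inner_smul_left,
        inner_self_eq_norm_sq_to_K, norm_e0]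
      have h4 : (4 : ℂ) ^ j * (1 / 2) ^ j * (1 / 2) ^ j = 1 := by
        rw [← mul_pow, ← mul_pow]; norm_num
      simp only [w, e1, map_pow, map_div₀, map_one, map_ofNat, PiLp.smul_apply,
        PiLp.single_apply, if_true, smul_eq_mul]
      push_cast
      linear_combination (c j : ℂ) * h4
    have h4 : (fun k : ℕ => innerSL ℂ v (((-(U + U * N)) ^ k) x)) =
        fun k : ℕ => (-1 : ℂ) ^ k * (k * G lam (fun j => (c j : ℂ)) (k * θ)) := by
      funext k
      rw [← neg_one_smul ℂ (U + U * N), smul_pow, smul_apply, map_smul, hS,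
        map_add, map_smul, h2, hG, h3, zero_add, smul_eq_mul, smul_eq_mul]
    rw [h4]
    exact hθ

end Pool.Agent.Lib.MP_1bd42a_an
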