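import Mathlib

/-! Taylor remainders of `exp (x * I)` and their sign properties. -/

namespace Pool.Agent.Lib.MP_1bd42a_an

open Complex Finset

/-- Taylor remainder of `exp (x I)`. -/
noncomputable def R (n : ℕ) (x : ℝ) : ℂ :=
  exp (x * I) - ∑ m ∈ range n, ((x : ℂ) * I) ^ m / (m.factorial : ℂ)

lemma R_succ (n : ℕ) (x : ℝ) : R (n + 1) x = R n x - ((x : ℂ) * I) ^ n / (n.factorial : ℂ) := by
  simp only [R, sum_range_succ]; ring

lemma norm_R_le (n : ℕ) (x : ℝ) : ‖R n x‖ ≤ (n + 3) * |x| ^ n := by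
  have hn : ‖(x : ℂ) * I‖ = |x| := by simp
  rcases le_total |x| 1 with h | h
  · have h1 := Complex.norm_exp_sub_sum_le_norm_mul_exp ((x : ℂ) * I) n
    rw [hn] at h1
    have h2 : Real.exp |x| ≤ 3 := (Real.exp_le_exp.2 h).trans (Real.exp_one_lt_d9.le.trans (by norm_num))
    have h3 : 0 ≤ |x| ^ n := by positivity
    calc ‖R n x‖ ≤ |x| ^ n * Real.exp |x| := h1
      _ ≤ |x| ^ n * 3 := by gcongr
      _ ≤ (n + 3) * |x| ^ n := by nlinarith [mul_nonneg (Nat.cast_nonneg (α := ℝ) n) h3]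
  · have h1 : 1 ≤ |x| ^ n := one_le_pow₀ h
    have h2 : ‖∑ m ∈ range n, ((x : ℂ) * I) ^ m / (m.factorial : ℂ)‖ ≤ n * |x| ^ n := by
      refine (norm_sum_le _ _).trans ?_
      have : ∀ m ∈ range n, ‖((x : ℂ) * I) ^ m / (m.factorial : ℂ)‖ ≤ |x| ^ n := by
        intro m hm
        rw [norm_div, norm_pow, hn, Complex.norm_natCast]
        have h4 : (1 : ℝ) ≤ m.factorial := by exact_mod_cast Nat.factorial_pos m
        calc |x| ^ m / (m.factorial : ℝ) ≤ |x| ^ m := div_le_self (by positivity) h4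
          _ ≤ |x| ^ n := pow_le_pow_right₀ h (mem_range.1 hm).le
      simpa using Finset.sum_le_card_nsmul _ _ _ this
    have h3 : ‖exp ((x : ℂ) * I)‖ = 1 := Complex.norm_exp_ofReal_mul_I x
    calc ‖R n x‖ ≤ ‖exp ((x : ℂ) * I)‖ + ‖∑ m ∈ range n, ((x : ℂ) * I) ^ m / (m.factorial : ℂ)‖ :=
          norm_sub_le _ _
      _ ≤ 1 + n * |x| ^ n := by rw [h3]; gcongr
      _ ≤ (n + 3) * |x| ^ n := by nlinarith

lemma hasDerivAt_mulI (x : ℝ) : HasDerivAt (fun y : ℝ => (y : ℂ) * I) I x := by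
  simpa using (Complex.ofRealCLM.hasDerivAt (x := x)).mul_const I

lemma hasDerivAt_R (n : ℕ) (x : ℝ) : HasDerivAt (R (n + 1)) (I * R n x) x := by
  induction n with
  | zero =>
    have h : R 1 = fun y : ℝ => exp ((y : ℂ) * I) - 1 := by funext y; simp [R]
    rw [h]
    have := ((hasDerivAt_mulI x).cexp).sub_const 1
    refine this.congr_deriv ?_
    simp [R, mul_comm]
  | succ n ih =>
    have h : R (n + 1 + 1) = fun y : ℝ =>
        R (n + 1) y - ((y : ℂ) * I) ^ (n + 1) / ((n + 1).factorial : ℂ) := by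
      funext y; exact R_succ _ _
    rw [h]
    have h2 := ((hasDerivAt_mulI x).pow (n + 1)).div_const ((n + 1).factorial : ℂ)
    refine (ih.sub h2).congr_deriv ?_
    rw [R_succ, Nat.factorial_succ]
    have h3 : (n.factorial : ℂ) ≠ 0 := by exact_mod_cast n.factorial_ne_zero
    have h4 : ((n : ℂ) + 1) ≠ 0 := by exact_mod_cast n.succ_ne_zero
    push_cast
    field_simp

lemma R_neg (n : ℕ) (x : ℝ) : R n (-x) = (starRingEnd ℂ) (R n x) := by
  simp [R, ← Complex.exp_conj]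

/-- Normalised remainder. -/
noncomputable def phi (N : ℕ) (x : ℝ) : ℂ := -(R (N + 1) x) * (-I) ^ N

lemma R_eq_phi (N : ℕ) (x : ℝ) : R (N + 1) x = -(phi N x) * I ^ N := by
  have : (-I) ^ N * I ^ N = 1 := by rw [← mul_pow]; simp
  rw [phi]; linear_combination (-(R (N + 1) x)) * this

lemma phi_succ (N : ℕ) (x : ℝ) :
    phi (N + 1) x = ((x ^ (N + 1) / ((N + 1).factorial : ℝ) : ℝ) : ℂ) - I * phi N x := by
  have : I ^ (N + 1) * (-I) ^ (N + 1) = 1 := by rw [← mul_pow]; simp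
  simp only [phi]
  rw [R_succ (N + 1), mul_pow]
  push_cast
  linear_combination ((x : ℂ) ^ (N + 1) / ((N + 1).factorial : ℂ)) * this

lemma hasDerivAt_phi (N : ℕ) (x : ℝ) : HasDerivAt (phi (N + 1)) (phi N x) x := by
  have := ((hasDerivAt_R (N + 1) x).neg).mul_const ((-I) ^ (N + 1))
  refine this.congr_deriv ?_
  simp only [phi]
  linear_combination (R (N + 1) x * (-I) ^ N) * I_sq

lemma phi_neg (N : ℕ) (x : ℝ) : phi N (-x) = (-1) ^ N * (starRingEnd ℂ) (phi N x) := by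
  simp only [phi, R_neg, map_mul, map_neg, map_pow, conj_I, neg_neg]
  rw [neg_pow I]; ring

lemma phi_zero (N : ℕ) : phi N 0 = 0 := by
  simp [phi, R, sum_range_succ']

/-- Real part of the normalised remainder. -/
noncomputable def P (N : ℕ) (x : ℝ) : ℝ := (phi N x).re

lemma P_zero (N : ℕ) : P N 0 = 0 := by simp [P, phi_zero]

lemma hasDerivAt_P (N : ℕ) (x : ℝ) : HasDerivAt (P (N + 1)) (P N x) x :=
  Complex.reCLM.hasFDerivAt.comp_hasDerivAt x (hasDerivAt_phi N x)

lemma phi_im (N : ℕ) (x : ℝ) : (phi (N + 1) x).im = -P N x := by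
  rw [phi_succ]; simp only [sub_im, ofReal_im, mul_im, I_re, I_im, P]; ring

lemma P_add_two (N : ℕ) (x : ℝ) :
    P (N + 2) x + P N x = x ^ (N + 2) / ((N + 2).factorial : ℝ) := by
  have h := phi_im N x
  simp only [P] at h ⊢
  rw [phi_succ (N + 1)]
  simp only [sub_re, ofReal_re, mul_re, I_re, I_im, h]
  ring

lemma nonneg_of_deriv {f f' : ℝ → ℝ} (h : ∀ x, HasDerivAt f (f' x) x) (h0 : f 0 = 0)
    (h' : ∀ x, 0 ≤ x → 0 ≤ f' x) {x : ℝ} (hx : 0 ≤ x) : 0 ≤ f x := by
  have hm : MonotoneOn f (Set.Ici 0) := by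
    refine monotoneOn_of_deriv_nonneg (convex_Ici 0) ?_ ?_ ?_
    · exact fun y _ => (h y).continuousAt.continuousWithinAt
    · exact fun y _ => (h y).differentiableAt.differentiableWithinAt
    · intro y hy
      rw [(h y).deriv]
      exact h' y (le_of_lt (by simpa using hy))
  simpa [h0] using hm (Set.mem_Ici.2 le_rfl) (Set.mem_Ici.2 hx) hx

lemma P_nonneg (N : ℕ) {x : ℝ} (hx : 0 ≤ x) : 0 ≤ P N x := by
  induction N generalizing x with
  | zero =>
    have : P 0 x = 1 - Real.cos x := by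
      simp [P, phi, R, Complex.exp_ofReal_mul_I_re]
    rw [this]; linarith [Real.cos_le_one x]
  | succ N ih => exact nonneg_of_deriv (hasDerivAt_P N) (P_zero _) (fun y hy => ih hy) hx

lemma P_le (N : ℕ) {x : ℝ} (hx : 0 ≤ x) : P (N + 2) x ≤ x * P (N + 1) x := by
  have h : ∀ y, HasDerivAt (fun y => y * P (N + 1) y - P (N + 2) y) (y * P N y) y := by
    intro y
    refine (((hasDerivAt_id y).mul (hasDerivAt_P N y)).sub (hasDerivAt_P (N + 1) y)).congr_deriv ?_
    simp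
  have := nonneg_of_deriv h (by simp [P_zero]) (fun y hy => mul_nonneg hy (P_nonneg N hy)) hx
  linarith

lemma P_lower (N : ℕ) {x : ℝ} (hx : 0 ≤ x) :
    x ^ (N + 2) / ((N + 2).factorial : ℝ) ≤ (1 + x) * (P (N + 1) x + P N x) := by
  rw [← P_add_two]
  have h1 := P_le N hx
  have h2 := P_nonneg N hx
  have h3 := P_nonneg (N + 1) hx
  nlinarith [mul_nonneg hx h2]

/-- The functional `Re + Im`. -/
def L (z : ℂ) : ℝ := z.re + z.im

lemma abs_L_le (z : ℂ) : |L z| ≤ 2 * ‖z‖ := by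
  have h1 := Complex.abs_re_le_norm z
  have h2 := Complex.abs_im_le_norm z
  have := abs_add_le z.re z.im
  simp only [L]; linarith

lemma L_add (z w : ℂ) : L (z + w) = L z + L w := by simp [L]; ring

lemma L_ge (z w : ℂ) : L z - 2 * ‖w - z‖ ≤ L w := by
  have h := abs_L_le (w - z)
  have h2 : L w = L z + L (w - z) := by rw [← L_add]; simp
  have := neg_abs_le (L (w - z))
  linarith

/-- The alternating directions `1, I, 1, I, ...`. -/
noncomputable def d (N : ℕ) : ℂ := if Even N then 1 else I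

/-- Sign with `I ^ N = e N * d N`. -/
def e (N : ℕ) : ℝ := (-1) ^ (N / 2)

lemma I_pow_eq (N : ℕ) : I ^ N = (e N : ℂ) * d N := by
  rcases Nat.even_or_odd' N with ⟨q, rfl | rfl⟩
  · simp [d, e, pow_mul]
  · have h1 : (2 * q + 1) / 2 = q := by omega
    have h2 : ¬ Even (2 * q + 1) := by simp
    simp [d, e, h1, h2, pow_succ, pow_mul]

lemma e_succ (N : ℕ) : e (N + 1) = (-1) ^ N * e N := by
  rcases Nat.even_or_odd' N with ⟨q, rfl | rfl⟩
  · have h1 : (2 * q + 1) / 2 = q := by omega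
    simp [e, h1]
  · have h1 : (2 * q + 1) / 2 = q := by omega
    have h2 : (2 * q + 1 + 1) / 2 = q + 1 := by omega
    simp [e, h1, h2, pow_succ]

lemma abs_e (N : ℕ) : |e N| = 1 := by simp [e]

lemma norm_d (N : ℕ) : ‖d N‖ = 1 := by unfold d; split_ifs <;> simp

/-- The main term of the new exponential sum lies in the first quadrant. -/
lemma L_main (n : ℕ) (M Λ t : ℝ) :
    L (((-M / ((-1) ^ (n + 2) * Λ) ^ (n + 1) : ℝ) : ℂ) * R (n + 2) ((-1) ^ (n + 2) * Λ * t)) =
      M * e (n + 1) / Λ ^ (n + 1) * (P (n + 1) (Λ * t) + P n (Λ * t)) := by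
  rw [R_eq_phi, I_pow_eq]
  have him := phi_im n (Λ * t)
  rcases Nat.even_or_odd (n + 1) with h | h
  · have h1 : (-1 : ℝ) ^ (n + 2) = -1 := by
      rw [pow_succ, h.neg_one_pow]; simp
    have h2 : (-1 : ℝ) * Λ * t = -(Λ * t) := by ring
    rw [h1, h2, phi_neg, h.neg_one_pow, neg_one_mul, h.neg_pow]
    simp only [d, if_pos h, L, P] at him ⊢
    simp only [mul_re, mul_im, ofReal_re, ofReal_im, neg_re, neg_im, conj_re, conj_im, one_re,
      one_im, him]
    ring
  · have h1 : (-1 : ℝ) ^ (n + 2) = 1 := by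
      rw [pow_succ, h.neg_one_pow]; simp
    rw [h1, one_mul]
    simp only [d, if_neg (Nat.not_even_iff_odd.2 h), L, P] at him ⊢
    simp only [mul_re, mul_im, ofReal_re, ofReal_im, neg_re, neg_im, I_re, I_im, him]
    ring

end Pool.Agent.Lib.MP_1bd42a_an
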