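import Pool.Agent.Lib.MP_1bd42a_an.Op

/-! Density along every arithmetic progression, and the operator for all roots of unity. -/

namespace Pool.Agent.Lib.MP_1bd42a_an

open Complex Finset Filter Topology

lemma exists_ray_half {g : ℝ → ℂ} (hc : Continuous g) (h0 : g 0 = 0) (h : ∀ N, 0 < N → Marg N g)
    (hneg : ∀ t, g (-t) = (starRingEnd ℂ) (g t)) {w : ℂ} (h1 : 0 < w.re) (h2 : w.im ≠ 0)
    {η : ℝ} (hη : 0 < η) : ∃ t r : ℝ, 0 < r ∧ r < η ∧ g t = r * w := by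
  rcases lt_or_gt_of_ne h2 with h3 | h3
  · obtain ⟨t, r, a1, a2, a3⟩ := exists_ray hc h0 h (z := (starRingEnd ℂ) w) (by simpa)
      (by simpa) hη
    exact ⟨-t, r, a1, a2, by rw [hneg, a3]; simp⟩
  · exact exists_ray hc h0 h h1 h3 hη

lemma dense_hit_ap {g : ℝ → ℂ} (hc : Continuous g) (h0 : g 0 = 0) (h : ∀ N, 0 < N → Marg N g)
    (hneg : ∀ t, g (-t) = (starRingEnd ℂ) (g t)) (hper : Function.Periodic g (2 * Real.pi))
    {z : ℂ} (hre : 0 < z.re) (him : z.im ≠ 0) {δ : ℝ} (hδ : 0 < δ) {P s : ℕ} (hP : 0 < P)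
    (hs : s ≤ P) :
    Dense {θ : ℝ | ∃ q : ℕ, ‖((P * q + s : ℕ) : ℂ) * g ((P * q + s : ℕ) * θ) - z‖ < δ} := by
  rw [Metric.dense_iff]
  intro θ₀ ε hε
  have hpi := Real.pi_pos
  have hP0 : (0 : ℝ) < P := by exact_mod_cast hP
  obtain ⟨t, r, hr0, hr, hg⟩ := exists_ray_half hc h0 h hneg hre him
    (η := min (δ / (P * ‖z‖ + 1)) (1 / (2 * Real.pi / ε + P))) (by positivity)
  have hr1 : r < δ / (P * ‖z‖ + 1) := hr.trans_le (min_le_left _ _)
  have hr2 : r < 1 / (2 * Real.pi / ε + P) := hr.trans_le (min_le_right _ _)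
  set q := ⌊1 / (P * r)⌋₊ with hq
  have hq1 : (q : ℝ) ≤ 1 / (P * r) := Nat.floor_le (by positivity)
  have hq2 : 1 / (P * r) < q + 1 := Nat.lt_floor_add_one _
  rw [le_div_iff₀ (by positivity)] at hq1
  rw [div_lt_iff₀ (by positivity)] at hq2
  set k := P * q + s with hk
  have hσ0 : (0 : ℝ) ≤ s := Nat.cast_nonneg s
  have hσ1 : (s : ℝ) ≤ P := by exact_mod_cast hs
  have hkr : (k : ℝ) = P * q + s := by rw [hk]; push_cast; ring
  have hk1 : |k * r - 1| ≤ P * r := by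
    have a1 := mul_nonneg hσ0 hr0.le
    have a2 := mul_le_mul_of_nonneg_right hσ1 hr0.le
    rw [hkr, abs_le]; constructor <;> nlinarith
  have hk2 : 2 * Real.pi / ε < k := by
    rw [lt_div_iff₀ (by positivity)] at hr2
    have := (abs_le.1 hk1).1
    by_contra h3
    push Not at h3
    nlinarith
  have hk0 : (0 : ℝ) < k := lt_trans (by positivity) hk2
  set l := ⌊(k * θ₀ - t) / (2 * Real.pi)⌋ with hl
  have hl1 : (l : ℝ) ≤ (k * θ₀ - t) / (2 * Real.pi) := Int.floor_le _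
  have hl2 : (k * θ₀ - t) / (2 * Real.pi) < l + 1 := Int.lt_floor_add_one _
  rw [le_div_iff₀ (by positivity)] at hl1
  rw [div_lt_iff₀ (by positivity)] at hl2
  refine ⟨(t + l * (2 * Real.pi)) / k, ?_, q, ?_⟩
  · rw [Metric.mem_ball, Real.dist_eq]
    have h1 : (t + l * (2 * Real.pi)) / k - θ₀ = (t + l * (2 * Real.pi) - k * θ₀) / k := by
      field_simp
    rw [h1, abs_div, abs_of_pos hk0, div_lt_iff₀ hk0, abs_lt]
    rw [div_lt_iff₀ hε] at hk2
    constructor <;> nlinarith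
  · have h1 : (k : ℝ) * ((t + l * (2 * Real.pi)) / k) = t + l * (2 * Real.pi) := by field_simp
    rw [← hk, h1, hper.int_mul l]
    have h3 : (k : ℂ) * g t - z = ((k * r - 1 : ℝ) : ℂ) * z := by
      push_cast; linear_combination (k : ℂ) * hg
    rw [h3, norm_mul, Complex.norm_real, Real.norm_eq_abs]
    rw [lt_div_iff₀ (by positivity)] at hr1
    nlinarith [norm_nonneg z, mul_le_mul_of_nonneg_right hk1 (norm_nonneg z)]

lemma exists_rot {ζ : ℂ} {n : ℕ} (hn : 0 < n) (h1 : ζ ^ n = 1) (h2 : ζ ≠ 1) (z : ℂ) :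
    ∃ s < n, 0 ≤ (z / ζ ^ s).re := by
  by_contra h
  push Not at h
  have h3 : ∑ s ∈ range n, ζ⁻¹ ^ s = 0 := by
    have := mul_geom_sum ζ⁻¹ n
    rw [inv_pow, h1, inv_one, sub_self] at this
    exact (mul_eq_zero.1 this).resolve_left (sub_ne_zero.2 (by simpa using h2))
  have h4 : ∑ s ∈ range n, (z / ζ ^ s).re = 0 := by
    rw [← Complex.re_sum]
    simp only [div_eq_mul_inv, ← inv_pow]
    rw [← mul_sum, h3, mul_zero, zero_re]
  have h5 : ∑ s ∈ range n, (z / ζ ^ s).re < 0 :=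
    sum_neg (fun s hs => h s (mem_range.1 hs)) (nonempty_range_iff.2 hn.ne')
  exact h5.ne h4

theorem exists_denseRange_roots {g : ℝ → ℂ} (hc : Continuous g) (h0 : g 0 = 0)
    (h : ∀ N, 0 < N → Marg N g) (hneg : ∀ t, g (-t) = (starRingEnd ℂ) (g t))
    (hper : Function.Periodic g (2 * Real.pi)) :
    ∃ θ : ℝ, ∀ (n m : ℕ) (ω : ℂ), 0 < n → ω ^ n = 1 → ω ^ m ≠ 1 →
      DenseRange fun k : ℕ => ω ^ (m * k) * (((m * k : ℕ) : ℂ) * g ((m * k : ℕ) * θ)) := by
  let O : {p : ℕ × ℕ // 0 < p.1 ∧ p.2 ≤ p.1} × {q : ℚ // 0 < q} × {q : ℚ // q ≠ 0} × ℕ → Set ℝ :=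
    fun i => {θ : ℝ | ∃ q : ℕ, ‖((i.1.1.1 * q + i.1.1.2 : ℕ) : ℂ) *
      g ((i.1.1.1 * q + i.1.1.2 : ℕ) * θ) - ⟨(i.2.1 : ℚ), (i.2.2.1 : ℚ)⟩‖ <
        1 / ((i.2.2.2 : ℝ) + 1)}
  have h1 : ∀ i, IsOpen (O i) := by
    intro i
    simp only [O, Set.ofPred_exists]
    exact isOpen_iUnion fun k => isOpen_lt (by fun_prop) continuous_const
  have h2 : ∀ i, Dense (O i) := fun i =>
    dense_hit_ap hc h0 h hneg hper (by simpa using i.2.1.2) (by simpa using i.2.2.1.2)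
      (by positivity) i.1.2.1 i.1.2.2
  obtain ⟨θ, hθ⟩ := (dense_iInter_of_isOpen h1 h2).nonempty
  refine ⟨θ, fun n m ω hn hω hm => Metric.denseRange_iff.2 fun z ε hε => ?_⟩
  have hm0 : 0 < m := Nat.pos_of_ne_zero fun h => hm (by rw [h, pow_zero])
  have hζ : (ω ^ m) ^ n = 1 := by rw [← pow_mul, mul_comm, pow_mul, hω, one_pow]
  obtain ⟨s, hs, hz⟩ := exists_rot hn hζ hm z
  have hn1 : ‖(ω ^ m) ^ s‖ = 1 := by
    rw [norm_pow, Complex.norm_eq_one_of_pow_eq_one hζ hn.ne', one_pow]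
  have hne : (ω ^ m) ^ s ≠ 0 := fun h => by simp [h] at hn1
  set u := z / (ω ^ m) ^ s with hu
  obtain ⟨p, hp, hp'⟩ := exists_rat_btwn (show u.re < u.re + ε / 3 by linarith)
  have hp0 : 0 < p := by exact_mod_cast hz.trans_lt hp
  obtain ⟨q, hq, hq'⟩ := exists_rat_ne u.im (δ := ε / 3) (by positivity)
  obtain ⟨i, hi⟩ := exists_nat_one_div_lt (show 0 < ε / 3 by positivity)
  obtain ⟨k, hk⟩ := Set.mem_iInter.1 hθ
    (⟨(m * n, m * s), Nat.mul_pos hm0 hn, Nat.mul_le_mul_left m hs.le⟩, ⟨p, hp0⟩, ⟨q, hq⟩, i)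
  refine ⟨n * k + s, ?_⟩
  have e1 : m * (n * k + s) = m * n * k + m * s := by ring
  have e2 : ω ^ (m * (n * k + s)) = (ω ^ m) ^ s := by
    rw [pow_mul, pow_add, pow_mul, hζ, one_pow, one_mul]
  have e3 : z = (ω ^ m) ^ s * u := by rw [hu, mul_div_cancel₀ _ hne]
  have h3 : ‖u - ⟨(p : ℝ), (q : ℝ)⟩‖ ≤ |u.re - p| + |u.im - q| :=
    Complex.norm_le_abs_re_add_abs_im _
  have h5 : |u.re - p| < ε / 3 := abs_lt.2 ⟨by linarith, by linarith⟩
  simp only [e2]
  rw [dist_eq_norm, e3, ← mul_sub, norm_mul, hn1, one_mul, e1]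
  have h4 := norm_sub_le_norm_sub_add_norm_sub u (⟨(p : ℝ), (q : ℝ)⟩ : ℂ)
    (((m * n * k + m * s : ℕ) : ℂ) * g ((m * n * k + m * s : ℕ) * θ))
  rw [norm_sub_rev] at hk
  simp only at hk
  linarith

/-- An operator `S` without dense numerical orbits such that `(ω S) ^ m` has a dense numerical
orbit for every root of unity `ω` with `ω ^ m ≠ 1`. -/
theorem exists_op_roots : ∃ S : H2 →L[ℂ] H2,
    (∀ (x : H2) (f : H2 →L[ℂ] ℂ), ¬ DenseRange fun k : ℕ => f ((S ^ k) x)) ∧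
    ∃ (x : H2) (f : H2 →L[ℂ] ℂ), ∀ (n m : ℕ) (ω : ℂ), 0 < n → ω ^ n = 1 → ω ^ m ≠ 1 →
      DenseRange fun k : ℕ => f ((((ω • S) ^ m) ^ k) x) := by
  classical
  obtain ⟨lam, c, hW, h1, hl0, huniq, h0, hM⟩ := exists_series
  have hw : ∀ j, (4 : ℝ) ^ j * |c j| ≤ 100 := by
    intro j
    refine le_trans ?_ (hW j)
    gcongr
    rw [W]
    refine le_trans (pow_le_pow_left₀ (by norm_num) (by norm_num : (4 : ℝ) ≤ 16) j)
      (le_mul_of_one_le_right (by positivity) ?_)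
    rcases Nat.eq_zero_or_pos j with rfl | hj
    · simp
    · exact one_le_pow₀ (h1 j hj)
  have hsum : Summable fun j => ‖(c j : ℂ)‖ := by
    have := summable_of_le hW h1 (a := fun j => (c j : ℂ)) (C := 1) (fun j => by
      rw [one_mul, Complex.norm_real, Real.norm_eq_abs]
      exact le_mul_of_one_le_left (abs_nonneg _) (one_le_pow₀ (by norm_num))) 0
    simpa using this
  obtain ⟨θ, hθ⟩ := exists_denseRange_roots (continuous_G (lam := lam) hsum) h0 hM (G_neg lam c)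
    (periodic_G _ _)
  let μ : ℕ → ℂ := fun j => exp (((lam j * θ : ℝ) : ℂ) * I)
  have hμ : ∀ j, ‖μ j‖ = 1 := fun j => Complex.norm_exp_ofReal_mul_I _
  have hμk : ∀ j (k : ℕ), μ j ^ k = exp (((lam j * (k * θ) : ℝ) : ℂ) * I) := by
    intro j k
    simp only [μ]
    rw [← Complex.exp_nat_mul]
    congr 1
    push_cast; ring
  let w : ℕ → ℂ := fun j => ((4 ^ j * c j : ℝ) : ℂ)
  have hw' : ∀ j, ‖w j‖ = 4 ^ j * |c j| := fun j => by simp [w]
  obtain ⟨U, hU⟩ := exists_diag (ContinuousLinearMap.id ℂ E2) μ 1 zero_le_one fun j => (hμ j).le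
  obtain ⟨N, hN⟩ := exists_diag nil w 100 (by norm_num) fun j => (hw' j).trans_le (hw j)
  simp only [ContinuousLinearMap.id_apply] at hU
  have hUk : ∀ (k : ℕ) x j, (U ^ k) x j = μ j ^ k • x j := by
    intro k x j
    induction k with
    | zero => simp
    | succ k ih => rw [pow_succ', mul_apply_eq_comp, hU, ih, smul_smul, pow_succ']
  have hS : ∀ (k : ℕ) x, ((U + U * N) ^ k) x = (U ^ k) x + (k : ℂ) • (U ^ k) (N x) := by
    intro k x
    induction k with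
    | zero => simp
    | succ k ih =>
      rw [pow_succ', mul_apply_eq_comp, ih]
      ext1
      funext j
      simp only [add_apply, mul_apply_eq_comp, lp.coeFn_add,
        lp.coeFn_smul, Pi.add_apply, Pi.smul_apply, hU, hN, hUk, map_add, map_smul, nil_nil,
        smul_zero, add_zero]
      push_cast
      rw [pow_succ']
      module
  have hB : ∀ (k : ℕ) x, ‖(U ^ k) x‖ ≤ ‖x‖ := fun k x =>
    lp.norm_mono (by norm_num) fun j => by rw [hUk, norm_smul, norm_pow, hμ, one_pow, one_mul]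
  have hG : ∀ (k : ℕ) (x : H2) (f : H2 →L[ℂ] ℂ), f ((U ^ k) (N x)) =
      G lam (fun j => w j * x j 1 * f (lp.single 2 j e0)) (k * θ) := by
    intro k x f
    have h2 := (lp.hasSum_single (by norm_num) ((U ^ k) (N x))).mapL f
    rw [← h2.tsum_eq, G]
    congr 1
    funext j
    rw [hUk, hN, nil_apply, smul_smul, smul_smul, lp.single_smul, map_smul, hμk, smul_eq_mul]
    ring
  refine ⟨U + U * N, fun x f => ?_, ?_⟩
  · simp only [hS, map_add, map_smul, smul_eq_mul, hG]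
    refine not_denseRange_G hW h1 hl0 huniq h0 hM (C := ‖x‖ * ‖f‖) (by positivity) (fun j => ?_)
      θ _ (‖f‖ * ‖x‖) fun k => (f.le_opNorm _).trans (by gcongr; exact hB k x)
    have h2 : ‖x j 1‖ ≤ ‖x‖ :=
      (PiLp.norm_apply_le (x j) 1).trans (lp.norm_apply_le_norm (by norm_num) x j)
    have h3 : ‖f (lp.single 2 j e0)‖ ≤ ‖f‖ := by
      refine (f.le_opNorm _).trans (le_of_eq ?_)
      rw [lp.norm_single (by norm_num), norm_e0, mul_one]
    rw [norm_mul, norm_mul, hw']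
    calc 4 ^ j * |c j| * ‖x j 1‖ * ‖f (lp.single 2 j e0)‖ ≤ 4 ^ j * |c j| * ‖x‖ * ‖f‖ := by gcongr
      _ = _ := by ring
  · let x : H2 := ⟨_, geom_mem e1⟩
    let v : H2 := ⟨_, geom_mem e0⟩
    have hx : ∀ j, x j = ((1 / 2 : ℂ) ^ j) • e1 := fun _ => rfl
    have hv : ∀ j, v j = ((1 / 2 : ℂ) ^ j) • e0 := fun _ => rfl
    refine ⟨x, innerSL ℂ v, fun n m ω hn hω hm => ?_⟩
    have h2 : ∀ k : ℕ, innerSL ℂ v ((U ^ k) x) = 0 := by
      intro k
      rw [innerSL_apply_apply, lp.inner_eq_tsum]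
      simp only [hUk, hx, hv]
      simp [inner_smul_left, inner_smul_right, e0, e1, EuclideanSpace.inner_single_left]
    have h3 : (fun j => w j * x j 1 * innerSL ℂ v (lp.single 2 j e0)) = fun j => (c j : ℂ) := by
      funext j
      rw [innerSL_apply_apply, lp.inner_single_right, hx, hv, inner_smul_left,
        inner_self_eq_norm_sq_to_K, norm_e0]
      have h4 : (4 : ℂ) ^ j * (1 / 2) ^ j * (1 / 2) ^ j = 1 := by
        rw [← mul_pow, ← mul_pow]; norm_num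
      simp only [w, e1, map_pow, map_div₀, map_one, map_ofNat, PiLp.smul_apply,
        PiLp.single_apply, if_true, smul_eq_mul]
      push_cast
      linear_combination (c j : ℂ) * h4
    have h4 : (fun k : ℕ => innerSL ℂ v ((((ω • (U + U * N)) ^ m) ^ k) x)) =
        fun k : ℕ => ω ^ (m * k) * (((m * k : ℕ) : ℂ) *
          G lam (fun j => (c j : ℂ)) ((m * k : ℕ) * θ)) := by
      funext k
      rw [← pow_mul, smul_pow, smul_apply, map_smul, hS,
        map_add, map_smul, h2, hG, h3, zero_add, smul_eq_mul, smul_eq_mul]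
    rw [h4]
    exact hθ n m ω hn hω hm

end Pool.Agent.Lib.MP_1bd42a_an
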