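import Pool.Agent.Lib.MP_1bd42a_an.Rem

/-! Finite stages of the lacunary exponential series. -/

namespace Pool.Agent.Lib.MP_1bd42a_an

open Complex Finset Filter Topology

/-- Finite exponential sum. -/
noncomputable def gs (N : ℕ) (lam : ℕ → ℤ) (c : ℕ → ℝ) (t : ℝ) : ℂ :=
  ∑ j ∈ range (N + 1), (c j : ℂ) * exp (((lam j * t : ℝ) : ℂ) * I)

/-- Moments. -/
def mom (N : ℕ) (lam : ℕ → ℤ) (c : ℕ → ℝ) (m : ℕ) : ℝ :=
  ∑ j ∈ range (N + 1), c j * (lam j : ℝ) ^ m

/-- Invariant of the construction. -/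
structure Good (N : ℕ) (lam : ℕ → ℤ) (c : ℕ → ℝ) : Prop where
  lam0 : lam 0 = 0
  c0 : c 0 = 1
  supp : ∀ j, N < j → c j = 0
  mono : ∀ i j, i < j → j ≤ N → |lam i| < |lam j|
  mom0 : ∀ m < N, mom N lam c m = 0
  lead : 0 < mom N lam c N * e N
  pos : ∀ t, 0 < t → t ≤ 1 → 0 < L (gs N lam c t)

lemma continuous_gs (N : ℕ) (lam : ℕ → ℤ) (c : ℕ → ℝ) : Continuous (gs N lam c) := by
  unfold gs; fun_prop

lemma continuous_L : Continuous L := by unfold L; fun_prop

lemma gs_eq (N : ℕ) (lam : ℕ → ℤ) (c : ℕ → ℝ) (n : ℕ) (t : ℝ) :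
    gs N lam c t = ∑ j ∈ range (N + 1), (c j : ℂ) * R n (lam j * t) +
      ∑ m ∈ range n, (mom N lam c m : ℂ) * (((t : ℂ) * I) ^ m / (m.factorial : ℂ)) := by
  simp only [gs, R, mom, mul_sub, sum_sub_distrib, mul_sum]
  push_cast
  simp only [sum_mul]
  rw [sum_comm (s := range n)]
  have : ∀ j ∈ range (N + 1), ∑ m ∈ range n, (c j : ℂ) * (((lam j : ℂ) * t * I) ^ m / (m.factorial : ℂ))
      = ∑ m ∈ range n, (c j : ℂ) * (lam j : ℂ) ^ m * (((t : ℂ) * I) ^ m / (m.factorial : ℂ)) := by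
    intro j _
    refine sum_congr rfl fun m _ => ?_
    rw [mul_assoc (lam j : ℂ), mul_pow]; ring
  rw [sum_congr rfl this]; ring

lemma norm_sum_R_le (N : ℕ) (lam : ℕ → ℤ) (c b : ℕ → ℝ) (n : ℕ) (t : ℝ)
    (hb : ∀ j ∈ range (N + 1), |c j| ≤ b j) :
    ‖∑ j ∈ range (N + 1), (c j : ℂ) * R n (lam j * t)‖ ≤
      (∑ j ∈ range (N + 1), b j * ((n + 3) * |(lam j : ℝ)| ^ n)) * |t| ^ n := by
  refine (norm_sum_le _ _).trans ?_
  rw [sum_mul]
  refine sum_le_sum fun j hj => ?_
  rw [norm_mul, Complex.norm_real, Real.norm_eq_abs, mul_assoc, mul_assoc, ← mul_pow, ← abs_mul]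
  exact mul_le_mul (hb j hj) (norm_R_le _ _) (norm_nonneg _) ((abs_nonneg _).trans (hb j hj))

lemma good_one : Good 1 (fun j => if j = 0 then 0 else -1)
    (fun j => if j = 0 then 1 else if j = 1 then -1 else 0) where
  lam0 := by simp
  c0 := by simp
  supp := by
    intro j hj
    have h0 : j ≠ 0 := by omega
    have h1 : j ≠ 1 := by omega
    simp [h0, h1]
  mono := by
    intro i j hij hj
    have h0 : i = 0 := by omega
    have h1 : j = 1 := by omega
    simp [h0, h1]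
  mom0 := by
    intro m hm
    have : m = 0 := by omega
    simp [mom, this, sum_range_succ]
  lead := by simp [mom, sum_range_succ, e]
  pos := by
    intro t h0 h1
    have h2 : 0 < Real.sin t := Real.sin_pos_of_pos_of_lt_pi h0 (by linarith [Real.pi_gt_three])
    have h3 := Real.cos_le_one t
    have h4 := Complex.exp_ofReal_mul_I_re (-t)
    have h5 := Complex.exp_ofReal_mul_I_im (-t)
    simp only [Real.cos_neg, Real.sin_neg, ofReal_neg, neg_mul] at h4 h5
    simp [gs, L, sum_range_succ, h4, h5]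
    linarith

lemma tendsto_coef (s : ℝ) (hs : s * s = 1) (c l : ℝ) :
    Tendsto (fun Λ : ℕ => c * (s * Λ) / (s * Λ - l)) atTop (𝓝 c) := by
  have h1 : Tendsto (fun Λ : ℕ => (Λ : ℝ) + (-(s * l))) atTop atTop :=
    tendsto_atTop_add_const_right _ _ tendsto_natCast_atTop_atTop
  have h2 := (h1.inv_tendsto_atTop.const_mul (c * (s * l))).const_add c
  simp only [mul_zero, add_zero] at h2
  refine h2.congr' ?_
  filter_upwards [h1.eventually_gt_atTop 0] with Λ hΛ
  have h3 : s * Λ - l = s * ((Λ : ℝ) + -(s * l)) := by linear_combination l * hs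
  have hs0 : s ≠ 0 := by rintro rfl; simp at hs
  rw [h3]
  simp only [Pi.inv_apply]
  field_simp
  ring

lemma step {n : ℕ} {lam : ℕ → ℤ} {c : ℕ → ℝ} (h : Good (n + 1) lam c) {ε : ℝ} (hε : 0 < ε) :
    ∃ (lam' : ℕ → ℤ) (c' : ℕ → ℝ), Good (n + 2) lam' c' ∧ (∀ j ≤ n + 1, lam' j = lam j) ∧
      (∀ j ≤ n + 1, |c' j - c j| ≤ ε) ∧ |c' (n + 2)| * |(lam' (n + 2) : ℝ)| ^ n ≤ ε := by
  classical
  set s : ℝ := (-1) ^ (n + 2) with hs
  have hss : s * s = 1 := by rw [hs, ← mul_pow]; simp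
  have habs : |s| = 1 := by simp [hs]
  set r := mom (n + 1) lam c (n + 1) * e (n + 1) with hr
  have hr0 : 0 < r := h.lead
  set C := ∑ j ∈ range (n + 1 + 1), (|c j| + 1) * (((n + 2 : ℕ) + 3) * |(lam j : ℝ)| ^ (n + 2))
    with hC
  have hC0 : 0 ≤ C := by positivity
  set K : ℝ := ((n + 2).factorial : ℝ) with hK
  have hK0 : 0 < K := by positivity
  set δ := r / (8 * C * K + 1) with hδ
  have hδ0 : 0 < δ := by positivity
  obtain ⟨m, hm0, hm⟩ := (isCompact_Icc (a := δ) (b := 1)).exists_forall_le'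
    (f := fun t => L (gs (n + 1) lam c t)) (a := 0)
    (continuous_L.comp (continuous_gs _ _ _)).continuousOn
    (fun t ht => h.pos t (hδ0.trans_le ht.1) ht.2)
  set ε' := min (min ε 1) (m / (4 * (n + 3))) with hε'
  have hε'0 : 0 < ε' := by positivity
  let a : ℕ → ℕ → ℝ := fun Λ j => c j * (s * Λ) / (s * Λ - lam j)
  have ha : ∀ j, Tendsto (fun Λ => a Λ j) atTop (𝓝 (c j)) := fun j => tendsto_coef s hss _ _
  let A : ℕ → ℝ := fun Λ => ∑ j ∈ range (n + 1 + 1), a Λ j * (lam j : ℝ) ^ (n + 1)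
  have hA : Tendsto A atTop (𝓝 (mom (n + 1) lam c (n + 1))) :=
    tendsto_finsetSum _ fun j _ => (ha j).mul_const _
  have hA2 : Tendsto (fun Λ : ℕ => |A Λ| / Λ) atTop (𝓝 0) :=
    hA.abs.div_atTop tendsto_natCast_atTop_atTop
  have e1 : ∀ᶠ Λ : ℕ in atTop, ∀ j ∈ range (n + 1 + 1), |lam j| < (Λ : ℤ) := by
    rw [eventually_all_finset]
    intro j _
    exact tendsto_natCast_atTop_atTop.eventually_gt_atTop _
  have e2 : ∀ᶠ Λ : ℕ in atTop, ∀ j ∈ range (n + 1 + 1), |a Λ j - c j| ≤ ε' := by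
    rw [eventually_all_finset]
    intro j _
    have := (Metric.tendsto_nhds.1 (ha j)) ε' hε'0
    exact this.mono fun Λ hΛ => by rw [Real.dist_eq] at hΛ; exact hΛ.le
  have e3 : ∀ᶠ Λ : ℕ in atTop, r / 2 < A Λ * e (n + 1) :=
    (hA.mul_const (e (n + 1))).eventually (lt_mem_nhds (by rw [← hr]; linarith))
  have e4 : ∀ᶠ Λ : ℕ in atTop, 1 / δ ≤ (Λ : ℝ) :=
    tendsto_natCast_atTop_atTop.eventually_ge_atTop _
  have e5 : ∀ᶠ Λ : ℕ in atTop, |A Λ| / Λ ≤ ε' := hA2.eventually (ge_mem_nhds hε'0)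
  obtain ⟨Λ, e1, e2, e3, e4, e5⟩ := (e1.and (e2.and (e3.and (e4.and e5)))).exists
  have hΛ1 : (1 : ℝ) ≤ Λ := by
    have := e1 0 (by simp)
    rw [h.lam0] at this
    have : 1 ≤ Λ := by simpa [Nat.one_le_iff_ne_zero, pos_iff_ne_zero] using this
    exact_mod_cast this
  have hΛ0 : (0 : ℝ) < Λ := by linarith
  set l : ℤ := (-1) ^ (n + 2) * Λ with hl
  have hlr : (l : ℝ) = s * Λ := by simp [hl, hs]
  have hlabs : |l| = Λ := by simp [hl, abs_mul]
  have hlabs' : |(l : ℝ)| = Λ := by exact_mod_cast hlabs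
  have hl0 : (l : ℝ) ≠ 0 := by intro h0; rw [h0] at hlabs'; simp at hlabs'; linarith
  set κ : ℝ := -∑ j ∈ range (n + 1 + 1), a Λ j with hκ
  let lam' : ℕ → ℤ := fun j => if j ≤ n + 1 then lam j else l
  let c' : ℕ → ℝ := fun j => if j ≤ n + 1 then a Λ j else if j = n + 2 then κ else 0
  have hlam' : ∀ j ≤ n + 1, lam' j = lam j := fun j hj => if_pos hj
  have hc' : ∀ j ≤ n + 1, c' j = a Λ j := fun j hj => if_pos hj
  have hlamN : lam' (n + 2) = l := if_neg (by omega)
  have hcN : c' (n + 2) = κ := by simp [c']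
  have hne : ∀ j ∈ range (n + 1 + 1), s * Λ - lam j ≠ 0 := by
    intro j hj h0
    have h1 : (lam j : ℝ) = l := by rw [hlr]; linarith
    have h2 : lam j = l := by exact_mod_cast h1
    have := e1 j hj
    rw [h2, hlabs] at this
    exact lt_irrefl _ this
  have hmom : ∀ k, mom (n + 2) lam' c' k =
      ∑ j ∈ range (n + 1 + 1), a Λ j * (lam j : ℝ) ^ k + κ * (l : ℝ) ^ k := by
    intro k
    rw [mom, sum_range_succ, hlamN, hcN]
    congr 1
    refine sum_congr rfl fun j hj => ?_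
    have hj' : j ≤ n + 1 := by simpa [Nat.lt_succ_iff] using hj
    rw [hlam' j hj', hc' j hj']
  have hrec : ∀ k, mom (n + 2) lam' c' (k + 1) =
      l * mom (n + 2) lam' c' k - l * mom (n + 1) lam c k := by
    intro k
    rw [hmom, hmom, mom, mul_add, mul_sum, mul_sum, add_sub_right_comm, ← sum_sub_distrib]
    congr 1
    · refine sum_congr rfl fun j hj => ?_
      have h1 : a Λ j * (s * Λ - lam j) = c j * (s * Λ) := div_mul_cancel₀ _ (hne j hj)
      rw [hlr]
      linear_combination (-(lam j : ℝ) ^ k) * h1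
    · ring
  have hmom0 : ∀ k ≤ n + 1, mom (n + 2) lam' c' k = 0 := by
    intro k
    induction k with
    | zero => intro _; rw [hmom]; simp [hκ]
    | succ k ih => intro hk; rw [hrec, ih (by omega), h.mom0 k (by omega)]; simp
  have hκA : κ = -A Λ / (s * Λ) ^ (n + 1) := by
    have h1 := hmom0 (n + 1) le_rfl
    rw [hmom] at h1
    rw [← hlr, eq_div_iff (pow_ne_zero _ hl0)]
    linear_combination h1
  have hκle : |κ| * (Λ : ℝ) ^ n ≤ ε' := by
    refine le_trans (le_of_eq ?_) e5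
    rw [hκA, abs_div, abs_neg, abs_pow, ← hlr, hlabs']
    field_simp
    ring
  have hκle' : |κ| ≤ ε' :=
    le_trans (le_mul_of_one_le_right (abs_nonneg _) (one_le_pow₀ hΛ1)) hκle
  have hε1 : ε' ≤ ε := (min_le_left _ _).trans (min_le_left _ _)
  have hε2 : ε' ≤ 1 := (min_le_left _ _).trans (min_le_right _ _)
  have hε3 : ε' ≤ m / (4 * (n + 3)) := min_le_right _ _
  refine ⟨lam', c', ⟨?_, ?_, ?_, ?_, ?_, ?_, ?_⟩, hlam', ?_, ?_⟩
  · rw [hlam' 0 (by omega), h.lam0]
  · rw [hc' 0 (by omega)]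
    have := hne 0 (by simp)
    simp only [a, h.lam0, h.c0] at this ⊢
    simp only [Int.cast_zero, sub_zero, one_mul] at this ⊢
    exact div_self this
  · intro j hj
    have h1 : ¬ j ≤ n + 1 := by omega
    have h2 : j ≠ n + 2 := by omega
    simp [c', h1, h2]
  · intro i j hij hj
    rw [hlam' i (by omega)]
    rcases Nat.lt_or_ge j (n + 2) with h1 | h1
    · rw [hlam' j (by omega)]; exact h.mono i j hij (by omega)
    · have : j = n + 2 := by omega
      rw [this, hlamN, hlabs]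
      exact e1 i (by simp; omega)
  · intro k hk; exact hmom0 k (by omega)
  · rw [hrec, hmom0 (n + 1) le_rfl, e_succ (n + 1), hlr]
    have h1 : s = -(-1) ^ (n + 1) := by rw [hs, pow_succ]; ring
    have h2 : ((-1 : ℝ) ^ (n + 1)) * (-1) ^ (n + 1) = 1 := by rw [← mul_pow]; simp
    have h3 : (s * Λ * 0 - s * Λ * mom (n + 1) lam c (n + 1)) * ((-1) ^ (n + 1) * e (n + 1))
        = Λ * r := by
      rw [h1, hr]; linear_combination (Λ * mom (n + 1) lam c (n + 1) * e (n + 1)) * h2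
    rw [h3]; positivity
  · intro t ht0 ht1
    rcases le_total t δ with htδ | htδ
    · rw [gs_eq _ _ _ (n + 2)]
      have h1 : ∑ k ∈ range (n + 2), (mom (n + 2) lam' c' k : ℂ) *
          (((t : ℂ) * I) ^ k / (k.factorial : ℂ)) = 0 := by
        refine sum_eq_zero fun k hk => ?_
        rw [hmom0 k (by simpa [Nat.lt_succ_iff] using hk)]; simp
      rw [h1, add_zero, sum_range_succ, hlamN, hcN, L_add]
      have h2 : ∑ j ∈ range (n + 1 + 1), (c' j : ℂ) * R (n + 2) (lam' j * t) =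
          ∑ j ∈ range (n + 1 + 1), (a Λ j : ℂ) * R (n + 2) (lam j * t) := by
        refine sum_congr rfl fun j hj => ?_
        have hj' : j ≤ n + 1 := by simpa [Nat.lt_succ_iff] using hj
        rw [hlam' j hj', hc' j hj']
      have h3 := norm_sum_R_le (n + 1) lam (a Λ) (fun j => |c j| + 1) (n + 2) t (by
        intro j hj
        have := e2 j hj
        have h4 := abs_add_le (a Λ j - c j) (c j)
        simp only [sub_add_cancel] at h4
        linarith)
      rw [← hC, abs_of_pos ht0, ← h2] at h3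
      have h4 := L_main n (A Λ) Λ t
      rw [← hs, ← hκA, ← hlr] at h4
      rw [h4]
      have h5 := P_lower n (x := Λ * t) (by positivity)
      rw [← hK] at h5
      have h6 := abs_L_le (∑ j ∈ range (n + 1 + 1), (c' j : ℂ) * R (n + 2) (lam' j * t))
      have h7 := neg_abs_le (L (∑ j ∈ range (n + 1 + 1), (c' j : ℂ) * R (n + 2) (lam' j * t)))
      set Q := P (n + 1) (Λ * t) + P n (Λ * t) with hQ
      have hQ0 : 0 ≤ Q := add_nonneg (P_nonneg _ (by positivity)) (P_nonneg _ (by positivity))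
      have h8 : 2 * (C * t ^ (n + 2)) < A Λ * e (n + 1) / (Λ : ℝ) ^ (n + 1) * Q := by
        have h9 : r / 2 / (Λ : ℝ) ^ (n + 1) * Q ≤ A Λ * e (n + 1) / (Λ : ℝ) ^ (n + 1) * Q := by
          gcongr
        refine lt_of_lt_of_le ?_ h9
        have h10 : (Λ * t) ^ (n + 2) / K / (1 + Λ * t) ≤ Q := by
          rw [div_le_iff₀ (by positivity)]; linarith
        have h11 : 1 ≤ δ * Λ := by rw [div_le_iff₀ hδ0] at e4; linarith
        have h12 : δ * (8 * C * K + 1) = r := by rw [hδ]; field_simp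
        have h13 : 4 * C * K * (1 + Λ * t) < r * Λ := by
          have : 1 + Λ * t ≤ 2 * (δ * Λ) := by nlinarith
          have h14 : 4 * C * K * (1 + Λ * t) ≤ 4 * C * K * (2 * (δ * Λ)) := by gcongr
          nlinarith
        calc 2 * (C * t ^ (n + 2))
            < r / 2 / (Λ : ℝ) ^ (n + 1) * ((Λ * t) ^ (n + 2) / K / (1 + Λ * t)) := by
              have h15 : r / 2 / (Λ : ℝ) ^ (n + 1) * ((Λ * t) ^ (n + 2) / K / (1 + Λ * t)) =
                  (r * Λ) / (2 * K * (1 + Λ * t)) * t ^ (n + 2) := by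
                field_simp
                ring
              rw [h15, ← mul_assoc]
              refine mul_lt_mul_of_pos_right ?_ (by positivity)
              rw [lt_div_iff₀ (by positivity)]
              linarith
          _ ≤ r / 2 / (Λ : ℝ) ^ (n + 1) * Q := by gcongr
      linarith
    · have h1 := hm t ⟨htδ, ht1⟩
      have h2 := L_ge (gs (n + 1) lam c t) (gs (n + 2) lam' c' t)
      have h3 : ‖gs (n + 2) lam' c' t - gs (n + 1) lam c t‖ ≤ (n + 3) * ε' := by
        rw [gs, gs, sum_range_succ (n := n + 2), add_sub_right_comm, ← sum_sub_distrib]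
        refine (norm_add_le _ _).trans ?_
        have h4 : ‖∑ j ∈ range (n + 1 + 1), ((c' j : ℂ) * exp (((lam' j * t : ℝ) : ℂ) * I) -
            (c j : ℂ) * exp (((lam j * t : ℝ) : ℂ) * I))‖ ≤ (n + 2) * ε' := by
          refine (norm_sum_le _ _).trans ?_
          have : ∀ j ∈ range (n + 1 + 1), ‖(c' j : ℂ) * exp (((lam' j * t : ℝ) : ℂ) * I) -
              (c j : ℂ) * exp (((lam j * t : ℝ) : ℂ) * I)‖ ≤ ε' := by
            intro j hj
            have hj' : j ≤ n + 1 := by simpa [Nat.lt_succ_iff] using hj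
            rw [hlam' j hj', hc' j hj', ← sub_mul, norm_mul, Complex.norm_exp_ofReal_mul_I,
              mul_one, ← ofReal_sub, Complex.norm_real]
            exact e2 j hj
          have h5 := Finset.sum_le_card_nsmul _ _ _ this
          simp only [card_range, nsmul_eq_mul] at h5
          refine h5.trans (le_of_eq ?_)
          push_cast
          ring
        rw [norm_mul, Complex.norm_exp_ofReal_mul_I, mul_one, hcN, Complex.norm_real,
          Real.norm_eq_abs]
        linarith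
      have h4 : (n + 3) * ε' ≤ m / 4 := by
        rw [le_div_iff₀ (by positivity)] at hε3
        linarith
      linarith
  · intro j hj
    rw [hc' j hj]
    exact (e2 j (by simp; omega)).trans hε1
  · rw [hcN, hlamN, hlabs']
    exact hκle.trans hε1

/-- The property which has to survive in the limit. -/
def Marg (N : ℕ) (h : ℝ → ℂ) : Prop :=
  (∀ t, 1 / (N : ℝ) ≤ t → t ≤ 1 → 0 < L (h t)) ∧
    ∃ τ ρ : ℝ, 0 < τ ∧ τ ≤ 1 / (N : ℝ) ∧ 0 < ρ ∧ ‖h τ - ρ * d N‖ ≤ ρ / N

lemma margin {N : ℕ} (hN : 0 < N) {lam : ℕ → ℤ} {c : ℕ → ℝ} (h : Good N lam c) :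
    ∃ η : ℝ, 0 < η ∧ ∀ g : ℝ → ℂ, (∀ t, ‖g t - gs N lam c t‖ ≤ η) → Marg N g := by
  have hN' : (0 : ℝ) < N := by exact_mod_cast hN
  obtain ⟨m, hm0, hm⟩ := (isCompact_Icc (a := 1 / (N : ℝ)) (b := 1)).exists_forall_le'
    (f := fun t => L (gs N lam c t)) (a := 0)
    (continuous_L.comp (continuous_gs _ _ _)).continuousOn
    (fun t ht => h.pos t (lt_of_lt_of_le (by positivity) ht.1) ht.2)
  set C := ∑ j ∈ range (N + 1), |c j| * (((N + 1 : ℕ) + 3) * |(lam j : ℝ)| ^ (N + 1)) with hC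
  have hC0 : 0 ≤ C := by positivity
  set γ := mom N lam c N * e N / (N.factorial : ℝ) with hγ
  have hγ0 : 0 < γ := div_pos h.lead (by positivity)
  set τ := min (1 / (N : ℝ)) (γ / (2 * N * (C + 1))) with hτ
  have hτ0 : 0 < τ := by positivity
  set ρ := γ * τ ^ N with hρ
  have hρ0 : 0 < ρ := by positivity
  refine ⟨min (m / 4) (ρ / (2 * N)), by positivity, fun g hg => ⟨fun t h1 h2 => ?_,
    τ, ρ, hτ0, min_le_left _ _, hρ0, ?_⟩⟩
  · have h3 := hm t ⟨h1, h2⟩
    have h4 := L_ge (gs N lam c t) (g t)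
    have h5 := (hg t).trans (min_le_left _ _)
    linarith
  · have h1 := (hg τ).trans (min_le_right _ _)
    have h2 : gs N lam c τ - ρ * d N =
        ∑ j ∈ range (N + 1), (c j : ℂ) * R (N + 1) (lam j * τ) := by
      rw [gs_eq _ _ _ (N + 1), sum_range_succ (n := N) (f := fun m => (mom N lam c m : ℂ) * _)]
      have h3 : ∑ k ∈ range N, (mom N lam c k : ℂ) *
          (((τ : ℂ) * I) ^ k / (k.factorial : ℂ)) = 0 := by
        refine sum_eq_zero fun k hk => ?_
        rw [h.mom0 k (mem_range.1 hk)]; simp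
      rw [h3, mul_pow, I_pow_eq, hρ, hγ]
      push_cast
      ring
    have h3 := norm_sum_R_le N lam c (fun j => |c j|) (N + 1) τ (fun j _ => le_rfl)
    rw [← hC, abs_of_pos hτ0, ← h2] at h3
    have h4 : C * τ ^ (N + 1) ≤ ρ / (2 * N) := by
      have h5 : τ ≤ γ / (2 * N * (C + 1)) := min_le_right _ _
      rw [le_div_iff₀ (by positivity)] at h5 ⊢
      rw [hρ, pow_succ]
      have h6 : 0 < τ ^ N := by positivity
      have h7 : C * τ * (2 * N) ≤ γ := by nlinarith [mul_pos hτ0 hN']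
      nlinarith
    calc ‖g τ - ρ * d N‖ = ‖(g τ - gs N lam c τ) + (gs N lam c τ - ρ * d N)‖ := by ring_nf
      _ ≤ ρ / (2 * N) + ρ / (2 * N) := (norm_add_le _ _).trans (add_le_add h1 (h3.trans h4))
      _ = ρ / N := by field_simp; ring

end Pool.Agent.Lib.MP_1bd42a_an
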